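import Pool.Agent.Lib.MP_07129f_an.Pt

/-!
Circle averages of analytic functions on the unit disc.
-/

namespace Pool.Agent.MP07129f

open Complex Metric Set Filter Topology MeasureTheory

/-- average over the circle of radius `r` centred at `0` -/
noncomputable def A (r : ℝ) (h : ℂ → ℝ) : ℝ := Real.circleAverage h 0 r

section
variable {r : ℝ} (hr0 : 0 < r) (hr1 : r < 1)
include hr0 hr1

omit hr0 in
lemma sphere_sub : sphere (0 : ℂ) r ⊆ ball 0 1 := fun z hz => by
  rw [mem_sphere_zero_iff_norm] at hz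
  rw [mem_ball_zero_iff, hz]; exact hr1

lemma sphere_sub' : sphere (0 : ℂ) |r| ⊆ ball 0 1 := by
  rw [abs_of_pos hr0]; exact sphere_sub hr1

omit hr0 in
lemma closedBall_sub : closedBall (0 : ℂ) r ⊆ ball 0 1 := fun z hz => by
  rw [mem_closedBall_zero_iff] at hz
  rw [mem_ball_zero_iff]; linarith

lemma ci {h : ℂ → ℝ} (hh : ContinuousOn h (ball 0 1)) : CircleIntegrable h 0 r :=
  (hh.mono (sphere_sub hr1)).circleIntegrable hr0.le

lemma ciC {h : ℂ → ℂ} (hh : ContinuousOn h (ball 0 1)) : CircleIntegrable h 0 r :=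
  (hh.mono (sphere_sub hr1)).circleIntegrable hr0.le

lemma A_mono {h k : ℂ → ℝ} (hh : ContinuousOn h (ball 0 1)) (hk : ContinuousOn k (ball 0 1))
    (hle : ∀ z ∈ sphere (0 : ℂ) r, h z ≤ k z) : A r h ≤ A r k := by
  apply Real.circleAverage_mono (ci hr0 hr1 hh) (ci hr0 hr1 hk)
  rw [abs_of_pos hr0]; exact hle

omit hr1 in
lemma A_nonneg {h : ℂ → ℝ} (hle : ∀ z ∈ sphere (0 : ℂ) r, 0 ≤ h z) : 0 ≤ A r h := by
  apply Real.circleAverage_nonneg_of_nonneg
  rw [abs_of_pos hr0]; exact hle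

lemma A_add {h k : ℂ → ℝ} (hh : ContinuousOn h (ball 0 1)) (hk : ContinuousOn k (ball 0 1)) :
    A r (fun z => h z + k z) = A r h + A r k :=
  Real.circleAverage_fun_add (ci hr0 hr1 hh) (ci hr0 hr1 hk)

lemma A_sub {h k : ℂ → ℝ} (hh : ContinuousOn h (ball 0 1)) (hk : ContinuousOn k (ball 0 1)) :
    A r (fun z => h z - k z) = A r h - A r k :=
  Real.circleAverage_fun_sub (ci hr0 hr1 hh) (ci hr0 hr1 hk)

omit hr0 hr1 in
lemma A_mul (c : ℝ) (h : ℂ → ℝ) : A r (fun z => c * h z) = c * A r h :=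
  Real.circleAverage_fun_smul (a := c) (f := h)

omit hr0 hr1 in
lemma A_const (c : ℝ) : A r (fun _ => c) = c := Real.circleAverage_const c 0 r

lemma A_sum {ι : Type*} {s : Finset ι} {h : ι → ℂ → ℝ}
    (hh : ∀ i ∈ s, ContinuousOn (h i) (ball 0 1)) :
    A r (fun z => ∑ i ∈ s, h i z) = ∑ i ∈ s, A r (h i) :=
  Real.circleAverage_fun_sum fun i hi => ci hr0 hr1 (hh i hi)

omit hr0 hr1 in
lemma A_congr (hr0 : 0 < r) {h k : ℂ → ℝ} (hle : ∀ z ∈ sphere (0 : ℂ) r, h z = k z) :
    A r h = A r k := by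
  apply Real.circleAverage_congr_sphere
  rw [abs_of_pos hr0]; exact hle

/-- mean value property -/
lemma A_re {h : ℂ → ℂ} (hh : DifferentiableOn ℂ h (ball 0 1)) : A r (fun z => (h z).re) = (h 0).re := by
  have hd : DiffContOnCl ℂ h (ball 0 |r|) := by
    rw [abs_of_pos hr0]
    apply DifferentiableOn.diffContOnCl
    rw [closure_ball _ hr0.ne']
    exact hh.mono (closedBall_sub hr1)
  have h1 := hd.circleAverage
  have h2 := reCLM.circleAverage_comp_comm (f := h) (c := 0) (R := r)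
    (ciC hr0 hr1 hh.continuousOn)
  rw [h1] at h2
  exact h2

/-- Cauchy-Schwarz -/
lemma A_CS {h k : ℂ → ℝ} (hh : ContinuousOn h (ball 0 1)) (hk : ContinuousOn k (ball 0 1)) :
    A r (fun z => h z * k z) ^ 2 ≤ A r (fun z => h z ^ 2) * A r (fun z => k z ^ 2) := by
  have h1 : ∀ x : ℝ, 0 ≤ A r (fun z => h z ^ 2) * (x * x) + (2 * A r (fun z => h z * k z)) * x +
      A r (fun z => k z ^ 2) := by
    intro x
    have h2 : 0 ≤ A r (fun z => (x * h z + k z) ^ 2) := A_nonneg hr0 fun z _ => sq_nonneg _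
    have h3 : A r (fun z => (x * h z + k z) ^ 2) = A r (fun z => h z ^ 2) * (x * x) +
        (2 * A r (fun z => h z * k z)) * x + A r (fun z => k z ^ 2) := by
      have e : (fun z => (x * h z + k z) ^ 2) = fun z => (((x * x) * h z ^ 2) +
          (2 * x) * (h z * k z)) + k z ^ 2 := by
        funext z; ring
      rw [e, A_add hr0 hr1 (by fun_prop) (by fun_prop), A_add hr0 hr1 (by fun_prop) (by fun_prop),
        A_mul, A_mul]
      ring
    rw [h3] at h2
    exact h2
  have h4 := discrim_le_zero h1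
  unfold discrim at h4
  nlinarith

/-- for `u 0 = 0` the real and imaginary parts have the same mean square -/
lemma A_sq {u : ℂ → ℂ} (hu : DifferentiableOn ℂ u (ball 0 1)) (hu0 : u 0 = 0) :
    A r (fun z => (u z).re ^ 2) = A r (fun z => (u z).im ^ 2) := by
  have h1 := A_re hr0 hr1 (h := fun z => u z ^ 2) (hu.pow 2)
  rw [hu0] at h1
  have e : (fun z => (u z ^ 2).re) = fun z => (u z).re ^ 2 - (u z).im ^ 2 := by
    funext z; rw [pow_two, mul_re]; ring
  have hc := hu.continuousOn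
  rw [e, A_sub hr0 hr1 (by fun_prop) (by fun_prop)] at h1
  simp at h1
  linarith

lemma A_norm_sq {u : ℂ → ℂ} (hu : DifferentiableOn ℂ u (ball 0 1)) (hu0 : u 0 = 0) :
    A r (fun z => ‖u z‖ ^ 2) = 2 * A r (fun z => (u z).im ^ 2) := by
  have e : (fun z => ‖u z‖ ^ 2) = fun z => (u z).re ^ 2 + (u z).im ^ 2 := by
    funext z; rw [← normSq_eq_norm_sq, normSq_apply]; ring
  have hc := hu.continuousOn
  rw [e, A_add hr0 hr1 (by fun_prop) (by fun_prop), A_sq hr0 hr1 hu hu0]
  ring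

/-- the Hardy type inequality: mean square of `R` is controlled by the mean of `z R'` -/
lemma hardy {R : ℂ → ℂ} (hR : DifferentiableOn ℂ R (ball 0 1)) (hR0 : R 0 = 0) :
    A r (fun z => ‖R z‖ ^ 2) ≤ Real.pi ^ 2 / 6 * A r (fun z => ‖z * deriv R z‖) ^ 2 := by
  have h2pi : (0 : ℝ) < 2 * Real.pi := Real.two_pi_pos
  have hmem : ∀ θ : ℝ, circleMap 0 r θ ∈ ball (0 : ℂ) 1 := fun θ =>
    sphere_sub hr1 (circleMap_mem_sphere 0 hr0.le θ)
  set f : ℝ → ℂ := fun θ => R (circleMap 0 r θ) with hf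
  set f' : ℝ → ℂ := fun θ => deriv R (circleMap 0 r θ) * (circleMap 0 r θ * I) with hf'
  have hder : ∀ θ : ℝ, HasDerivAt f (f' θ) θ := by
    intro θ
    have h1 := (hR.differentiableAt (ball_nhds (hmem θ))).hasDerivAt
    exact h1.comp_of_eq θ (hasDerivAt_circleMap 0 r θ) rfl
  have hdR : ContinuousOn (deriv R) (ball 0 1) := (hR.deriv isOpen_ball).continuousOn
  have hcm : Continuous (circleMap 0 r) := continuous_circleMap 0 r
  have hf'c : Continuous f' := by
    have h1 : Continuous fun θ => deriv R (circleMap 0 r θ) := hdR.comp_continuous hcm hmem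
    exact h1.mul (hcm.mul continuous_const)
  have hfc : Continuous f := hR.continuousOn.comp_continuous hcm hmem
  -- the mean of |z R'|
  set m : ℝ := A r (fun z => ‖z * deriv R z‖) with hm
  have hmint : (2 * Real.pi)⁻¹ * ∫ θ in (0 : ℝ)..2 * Real.pi, ‖f' θ‖ = m := by
    rw [hm, A, Real.circleAverage_def, smul_eq_mul]
    congr 1
    refine intervalIntegral.integral_congr fun θ _ => ?_
    simp only [hf', norm_mul, norm_I, mul_one]
    ring
  have hm0 : 0 ≤ m := A_nonneg hr0 fun z _ => norm_nonneg _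
  -- Fourier coefficients
  have hfl2 : MemLp f 2 (volume.restrict (Ioc 0 (2 * Real.pi))) := by
    obtain ⟨C, hC⟩ := isCompact_Icc.exists_bound_of_continuousOn
      (hfc.continuousOn (s := Icc (0 : ℝ) (2 * Real.pi)))
    refine MemLp.of_bound hfc.aestronglyMeasurable C ?_
    rw [ae_restrict_iff' measurableSet_Ioc]
    exact Eventually.of_forall fun x hx => hC x (Ioc_subset_Icc_self hx)
  have hpars := hasSum_sq_fourierCoeffOn h2pi hfl2
  have hval : (2 * Real.pi - 0)⁻¹ • ∫ x in (0 : ℝ)..2 * Real.pi, ‖f x‖ ^ 2 =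
      A r (fun z => ‖R z‖ ^ 2) := by
    rw [sub_zero, A, Real.circleAverage_def]
  rw [hval] at hpars
  have hcoef' : ∀ k : ℤ, ‖fourierCoeffOn h2pi f' k‖ ≤ m := by
    intro k
    rw [fourierCoeffOn_eq_integral, norm_smul, ← hmint]
    have e1 : ‖(1 / (2 * Real.pi - 0) : ℝ)‖ = (2 * Real.pi)⁻¹ := by
      rw [sub_zero, one_div, Real.norm_eq_abs, abs_of_pos (inv_pos.2 h2pi)]
    rw [e1]
    gcongr
    refine (intervalIntegral.norm_integral_le_integral_norm h2pi.le).trans (le_of_eq ?_)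
    refine intervalIntegral.integral_congr fun θ _ => ?_
    simp only [norm_smul]
    rw [fourier_apply, Circle.norm_coe, one_mul]
  have hcoef : ∀ k : ℤ, k ≠ 0 → ‖fourierCoeffOn h2pi f k‖ ≤ m / |(k : ℝ)| := by
    intro k hk
    rw [fourierCoeffOn_of_hasDerivAt h2pi hk (fun x _ => hder x)
      (hf'c.intervalIntegrable _ _)]
    have e2 : f (2 * Real.pi) = f 0 := by
      simp only [hf]
      rw [(periodic_circleMap 0 r).eq]
    have hk' : (0 : ℝ) < |(k : ℝ)| := abs_pos.2 (by exact_mod_cast hk)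
    rw [e2, sub_self, mul_zero, zero_sub, norm_mul, norm_neg, norm_mul]
    have e3 : ‖(1 : ℂ) / (-2 * Real.pi * I * k)‖ = 1 / (2 * Real.pi * |(k : ℝ)|) := by
      rw [norm_div, norm_mul, norm_mul, norm_mul, norm_neg, norm_I, norm_real, norm_intCast]
      simp [abs_of_pos Real.pi_pos]
    have e4 : ‖((2 * Real.pi : ℝ) : ℂ) - ((0 : ℝ) : ℂ)‖ = 2 * Real.pi := by
      rw [ofReal_zero, sub_zero, norm_real, Real.norm_eq_abs, abs_of_pos h2pi]
    rw [e3, e4]
    calc 1 / (2 * Real.pi * |(k : ℝ)|) * (2 * Real.pi * ‖fourierCoeffOn h2pi f' k‖)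
        = ‖fourierCoeffOn h2pi f' k‖ / |(k : ℝ)| := by
          have := Real.pi_pos
          field_simp
      _ ≤ m / |(k : ℝ)| := by
          gcongr
          exact hcoef' k
  have hneg : ∀ k : ℤ, k ≤ 0 → fourierCoeffOn h2pi f k = 0 := by
    intro k hk
    obtain ⟨n, hn⟩ : ∃ n : ℕ, -k = n := ⟨(-k).toNat, by omega⟩
    rw [fourierCoeffOn_eq_integral, hn]
    have hd : DiffContOnCl ℂ (fun z => z ^ n * R z) (ball 0 |r|) := by
      rw [abs_of_pos hr0]
      apply DifferentiableOn.diffContOnCl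
      rw [closure_ball _ hr0.ne']
      exact ((differentiableOn_id.pow n).mul hR).mono (closedBall_sub hr1)
    have h1 := hd.circleAverage
    rw [hR0, mul_zero, Real.circleAverage_def] at h1
    have h2 : ∫ θ in (0 : ℝ)..2 * Real.pi, (circleMap 0 r θ) ^ n * R (circleMap 0 r θ) = 0 := by
      rcases smul_eq_zero.1 h1 with h | h
      · exact absurd h (inv_pos.2 h2pi).ne'
      · exact h
    have h3 : ∀ θ : ℝ, (fourier (n : ℤ) (θ : AddCircle (2 * Real.pi - 0)) : ℂ) • f θ =
        ((r : ℂ) ^ n)⁻¹ * ((circleMap 0 r θ) ^ n * R (circleMap 0 r θ)) := by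
      intro θ
      rw [fourier_coe_apply, smul_eq_mul]
      have hrn : (r : ℂ) ^ n ≠ 0 := pow_ne_zero _ (by exact_mod_cast hr0.ne')
      have e5 : (circleMap 0 r θ) ^ n = (r : ℂ) ^ n * exp (n * (θ * I)) := by
        rw [circleMap_zero, mul_pow, ← exp_nat_mul]
      rw [e5]
      have e6 : 2 * (Real.pi : ℂ) * I * ((n : ℤ) : ℂ) * (θ : ℂ) / ((2 * Real.pi - 0 : ℝ) : ℂ) =
          n * (θ * I) := by
        have : (Real.pi : ℂ) ≠ 0 := by exact_mod_cast Real.pi_pos.ne'
        push_cast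
        field_simp
        ring
      rw [e6]
      field_simp
      rfl
    simp_rw [h3]
    rw [intervalIntegral.integral_const_mul, h2, mul_zero, smul_zero]
  have hinj : Function.Injective (fun n : ℕ => (n : ℤ)) := Nat.cast_injective
  have hsum := (hinj.hasSum_iff (f := fun k : ℤ => ‖fourierCoeffOn h2pi f k‖ ^ 2) (fun k hk => by
    have hk' : k ≤ 0 := by
      by_contra hcon
      push Not at hcon
      exact hk ⟨k.toNat, by simp; omega⟩
    simp only [hneg k hk']
    simp)).2 hpars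
  have hz := hasSum_zeta_two.mul_left (m ^ 2)
  have := hasSum_le (fun n : ℕ => ?_) hsum hz
  · rw [mul_comm] at this
    exact this
  · simp only [Function.comp]
    rcases Nat.eq_zero_or_pos n with h0 | h0
    · rw [h0]
      simp only [Nat.cast_zero]
      rw [hneg 0 le_rfl]
      simp
    · have h5 := hcoef (n : ℤ) (by omega)
      have h6 : |((n : ℤ) : ℝ)| = n := by simp
      rw [h6] at h5
      calc ‖fourierCoeffOn h2pi f (n : ℤ)‖ ^ 2 ≤ (m / n) ^ 2 := by gcongr
        _ = m ^ 2 * (1 / (n : ℝ) ^ 2) := by rw [div_pow]; ring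

end

end Pool.Agent.MP07129f
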