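import Pool.Agent.Lib.MP_07129f_an.Nec

/-!
Schwarz functions analytic on the closed disc.
-/

namespace Pool.Agent.MP07129f

open Complex Metric Set Filter Topology MeasureTheory

section
variable {ω : ℂ → ℂ} {R : ℝ}

lemma norm_expI (θ : ℝ) : ‖exp (θ * I)‖ = 1 := norm_exp_ofReal_mul_I θ

lemma circle_le (hR : 1 < R) (hω : DifferentiableOn ℂ ω (ball 0 R))
    (hω1 : ∀ z ∈ ball (0 : ℂ) 1, ‖ω z‖ < 1) (θ : ℝ) : ‖ω (exp (θ * I))‖ ≤ 1 := by
  have hmem : exp (θ * I) ∈ ball (0 : ℂ) R := by rw [mem_ball_zero_iff, norm_expI]; exact hR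
  have hc : ContinuousAt ω (exp (θ * I)) := (hω.differentiableAt (isOpen_ball.mem_nhds hmem)).continuousAt
  have h1 : Tendsto (fun r : ℝ => ‖ω (r * exp (θ * I))‖) (𝓝[<] 1) (𝓝 ‖ω (exp (θ * I))‖) := by
    apply Tendsto.norm
    apply hc.tendsto.comp
    have : Tendsto (fun r : ℝ => (r : ℂ) * exp (θ * I)) (𝓝 1) (𝓝 (((1 : ℝ) : ℂ) * exp (θ * I))) :=
      ((continuous_ofReal.mul continuous_const).tendsto 1)
    rw [ofReal_one, one_mul] at this
    exact tendsto_nhdsWithin_of_tendsto_nhds this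
  refine le_of_tendsto h1 ?_
  have h2 : Ioo (0 : ℝ) 1 ∈ 𝓝[<] (1 : ℝ) := Ioo_mem_nhdsLT (by norm_num)
  filter_upwards [h2] with r hr
  refine (hω1 _ ?_).le
  rw [mem_ball_zero_iff, norm_mul, norm_expI, norm_real, Real.norm_eq_abs, abs_of_pos hr.1, mul_one]
  exact hr.2

lemma inner_of_circle (hR : 1 < R) (hω : DifferentiableOn ℂ ω (ball 0 R))
    (h : ∀ θ : ℝ, ‖ω (exp (θ * I))‖ = 1) : IsInner ω := by
  refine Eventually.of_forall fun θ => ?_
  have hmem : exp (θ * I) ∈ ball (0 : ℂ) R := by rw [mem_ball_zero_iff, norm_expI]; exact hR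
  have hc : ContinuousAt ω (exp (θ * I)) := (hω.differentiableAt (isOpen_ball.mem_nhds hmem)).continuousAt
  have hT : Tendsto (fun r : ℝ => ‖ω (r * exp (θ * I))‖) (𝓝[<] 1) (𝓝 ‖ω (exp (θ * I))‖) := by
    apply Tendsto.norm
    apply hc.tendsto.comp
    have : Tendsto (fun r : ℝ => (r : ℂ) * exp (θ * I)) (𝓝 1) (𝓝 (((1 : ℝ) : ℂ) * exp (θ * I))) :=
      ((continuous_ofReal.mul continuous_const).tendsto 1)
    rw [ofReal_one, one_mul] at this
    exact tendsto_nhdsWithin_of_tendsto_nhds this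
  rw [h θ] at hT
  exact hT

/-- the defect on the circle -/
noncomputable def GG (ω : ℂ → ℂ) (θ : ℝ) : ℝ := 1 - ((ω (exp (θ * I))).re ^ 2 + (ω (exp (θ * I))).im ^ 2)

lemma GG_eq (θ : ℝ) : GG ω θ = 1 - ‖ω (exp (θ * I))‖ ^ 2 := by
  unfold GG
  rw [← normSq_eq_norm_sq, normSq_apply]
  ring

lemma GG_analytic (hR : 1 < R) (hω : DifferentiableOn ℂ ω (ball 0 R)) :
    AnalyticOnNhd ℝ (GG ω) univ := by
  intro θ _
  have hmem : exp (θ * I) ∈ ball (0 : ℂ) R := by rw [mem_ball_zero_iff, norm_expI]; exact hR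
  have h1 : AnalyticAt ℂ ω (exp (θ * I)) := hω.analyticAt (isOpen_ball.mem_nhds hmem)
  have h2 : AnalyticAt ℝ (fun t : ℝ => exp ((t : ℂ) * I)) θ := by
    have h3 : AnalyticAt ℝ (fun t : ℝ => (t : ℂ) * I) θ :=
      (ofRealCLM.analyticAt θ).mul analyticAt_const
    have h4 : AnalyticAt ℝ exp ((θ : ℂ) * I) := (analyticAt_cexp (z := (θ : ℂ) * I)).restrictScalars
    exact AnalyticAt.comp (g := exp) (f := fun t : ℝ => (t : ℂ) * I) h4 h3
  have h5 : AnalyticAt ℝ (fun t : ℝ => ω (exp ((t : ℂ) * I))) θ :=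
    AnalyticAt.comp (g := ω) (f := fun t : ℝ => exp ((t : ℂ) * I)) h1.restrictScalars h2
  have h6 : AnalyticAt ℝ (fun t : ℝ => (ω (exp ((t : ℂ) * I))).re) θ :=
    (reCLM.analyticAt _).comp h5
  have h7 : AnalyticAt ℝ (fun t : ℝ => (ω (exp ((t : ℂ) * I))).im) θ :=
    (imCLM.analyticAt _).comp h5
  exact analyticAt_const.sub ((h6.pow 2).add (h7.pow 2))

lemma norm_exp_sub_exp_le (s t : ℝ) : ‖exp (s * I) - exp (t * I)‖ ≤ |s - t| := by
  have := Real.norm_exp_I_mul_ofReal_sub_one_le (x := s - t)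
  have e : exp (s * I) - exp (t * I) = exp (t * I) * (exp (I * ((s - t : ℝ) : ℂ)) - 1) := by
    rw [mul_sub, mul_one, ← exp_add]
    congr 2
    push_cast
    ring
  rw [e, norm_mul, norm_expI, one_mul]
  simpa using this

lemma local_bound (hR : 1 < R) (hω : DifferentiableOn ℂ ω (ball 0 R)) {θ₀ : ℝ} (h0 : GG ω θ₀ ≠ 0)
    (θ : ℝ) : ∃ (k : ℕ) (C : ℝ), 0 ≤ C ∧ ∀ᶠ t : ℝ in 𝓝 θ, ‖exp (t * I) - exp (θ * I)‖ ^ k ≤ C * |GG ω t| := by
  have hA := GG_analytic hR hω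
  have hne : ¬ ∀ᶠ t in 𝓝 θ, GG ω t = 0 := by
    intro h
    have := hA.eqOn_zero_of_preconnected_of_eventuallyEq_zero isPreconnected_univ (mem_univ θ) h
    exact h0 (this (mem_univ θ₀))
  obtain ⟨k, g, hg, hg0, hgf⟩ := ((hA θ (mem_univ θ)).exists_eventuallyEq_pow_smul_nonzero_iff).2 hne
  have hpos : 0 < |g θ| := abs_pos.2 hg0
  refine ⟨k, 2 / |g θ|, by positivity, ?_⟩
  have h1 : ∀ᶠ t in 𝓝 θ, |g θ| / 2 < |g t| :=
    (hg.continuousAt.abs.tendsto).eventually (lt_mem_nhds (half_lt_self hpos))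
  filter_upwards [hgf, h1] with t ht1 ht2
  rw [ht1, smul_eq_mul, abs_mul, abs_pow]
  have h2 := norm_exp_sub_exp_le t θ
  have h3 : ‖exp (t * I) - exp (θ * I)‖ ^ k ≤ |t - θ| ^ k := by gcongr
  refine h3.trans ?_
  have h4 : 0 ≤ |t - θ| ^ k := by positivity
  rw [div_mul_eq_mul_div, le_div_iff₀ hpos]
  nlinarith

/-- a Schwarz function analytic on the closed disc which is not unimodular on the circle is not an
extreme point of the unit ball -/
theorem not_ballExtreme (hR : 1 < R) (hω : DifferentiableOn ℂ ω (ball 0 R))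
    (hω1 : ∀ z ∈ ball (0 : ℂ) 1, ‖ω z‖ < 1) {θ₀ : ℝ} (h0 : ‖ω (exp (θ₀ * I))‖ ≠ 1) :
    ¬ BallExtreme ω := by
  intro hext
  have hle := circle_le hR hω hω1
  have hG0 : GG ω θ₀ ≠ 0 := by
    rw [GG_eq]
    intro h
    apply h0
    have h2 : ‖ω (exp (θ₀ * I))‖ ^ 2 = 1 := by linarith
    exact (pow_eq_one_iff_of_nonneg (norm_nonneg _) two_ne_zero).1 h2
  have hGnn : ∀ θ, 0 ≤ GG ω θ := by
    intro θ
    rw [GG_eq]
    nlinarith [hle θ, norm_nonneg (ω (exp (θ * I)))]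
  choose k C hC hloc using fun θ => local_bound hR hω hG0 θ
  obtain ⟨T, _, hT⟩ := (isCompact_Icc (a := (0 : ℝ)) (b := 2 * Real.pi)).elim_nhds_subcover
    (fun θ => {t : ℝ | ‖exp (t * I) - exp (θ * I)‖ ^ k θ ≤ C θ * |GG ω t|}) (fun θ _ => hloc θ)
  set p : ℂ → ℂ := fun z => ∏ x ∈ T, (z - exp (x * I)) ^ k x with hp
  set D : ℝ := (∏ x ∈ T, (2 : ℝ) ^ k x) * ∑ x ∈ T, C x with hD
  have hpb : ∀ θ ∈ Icc (0 : ℝ) (2 * Real.pi), ‖p (exp (θ * I))‖ ≤ D * GG ω θ := by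
    intro θ hθ
    obtain ⟨x, hx, hxθ⟩ := mem_iUnion₂.1 (hT hθ)
    have hxθ' : ‖exp (θ * I) - exp (x * I)‖ ^ k x ≤ C x * GG ω θ := by
      have : ‖exp (θ * I) - exp (x * I)‖ ^ k x ≤ C x * |GG ω θ| := hxθ
      rwa [abs_of_nonneg (hGnn θ)] at this
    simp only [hp]
    rw [norm_prod, ← Finset.mul_prod_erase T _ hx]
    have h2 : ∏ y ∈ T.erase x, ‖(exp (θ * I) - exp (y * I)) ^ k y‖ ≤ ∏ y ∈ T.erase x, (2 : ℝ) ^ k y := by
      refine Finset.prod_le_prod (fun y _ => norm_nonneg _) fun y _ => ?_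
      rw [norm_pow]
      have : ‖exp (θ * I) - exp (y * I)‖ ≤ 2 := by
        refine (norm_sub_le _ _).trans ?_
        rw [norm_expI, norm_expI]; norm_num
      gcongr
    have h3 : ∏ y ∈ T.erase x, (2 : ℝ) ^ k y ≤ ∏ y ∈ T, (2 : ℝ) ^ k y := by
      rw [← Finset.mul_prod_erase T _ hx]
      exact le_mul_of_one_le_left (Finset.prod_nonneg fun _ _ => by positivity)
        (one_le_pow₀ (by norm_num))
    have h4 : C x ≤ ∑ x ∈ T, C x := Finset.single_le_sum (fun y _ => hC y) hx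
    have h5 := hGnn θ
    have h6 : 0 ≤ ∏ y ∈ T, (2 : ℝ) ^ k y := Finset.prod_nonneg fun _ _ => by positivity
    have h7 : 0 ≤ ∏ y ∈ T.erase x, (2 : ℝ) ^ k y := Finset.prod_nonneg fun _ _ => by positivity
    have h8 : 0 ≤ C x * GG ω θ := mul_nonneg (hC x) h5
    calc ‖(exp (θ * I) - exp (x * I)) ^ k x‖ * ∏ y ∈ T.erase x, ‖(exp (θ * I) - exp (y * I)) ^ k y‖
        ≤ (C x * GG ω θ) * ∏ y ∈ T.erase x, (2 : ℝ) ^ k y := by
          rw [norm_pow]
          exact mul_le_mul hxθ' h2 (Finset.prod_nonneg fun _ _ => norm_nonneg _) h8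
      _ ≤ (C x * GG ω θ) * ∏ y ∈ T, (2 : ℝ) ^ k y := by gcongr
      _ ≤ ((∑ x ∈ T, C x) * GG ω θ) * ∏ y ∈ T, (2 : ℝ) ^ k y := by gcongr
      _ = _ := by rw [hD]; ring
  have hpb' : ∀ z ∈ sphere (0 : ℂ) 1, ‖p z‖ ≤ D * (1 - ‖ω z‖ ^ 2) := by
    intro z hz
    have hz1 : ‖z‖ = 1 := mem_sphere_zero_iff_norm.1 hz
    obtain ⟨θ, hθ, hzθ⟩ : ∃ θ ∈ Icc (0 : ℝ) (2 * Real.pi), z = exp (θ * I) := by
      have hpi := Real.pi_pos
      have e := norm_mul_exp_arg_mul_I z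
      rw [hz1, ofReal_one, one_mul] at e
      by_cases hneg : 0 ≤ arg z
      · exact ⟨arg z, ⟨hneg, by linarith [arg_le_pi z]⟩, e.symm⟩
      · push Not at hneg
        refine ⟨arg z + 2 * Real.pi, ⟨by linarith [neg_pi_lt_arg z], by linarith⟩, ?_⟩
        push_cast
        rw [add_mul, exp_add, exp_two_pi_mul_I, mul_one]
        exact e.symm
    rw [hzθ, ← GG_eq]
    exact hpb θ hθ
  have hD0 : 0 ≤ D := mul_nonneg (Finset.prod_nonneg fun _ _ => by positivity)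
    (Finset.sum_nonneg fun x _ => hC x)
  have hpd : Differentiable ℂ p := by
    simp only [hp]
    fun_prop
  set c : ℝ := 1 / (2 * D + 1) with hc
  have hc0 : 0 < c := by positivity
  have hη : ∀ z ∈ sphere (0 : ℂ) 1, ‖(c : ℂ) * p z‖ ≤ 1 - ‖ω z‖ := by
    intro z hz
    have h1 := hpb' z hz
    have h2 : ‖ω z‖ ≤ 1 := by
      have e := norm_mul_exp_arg_mul_I z
      rw [mem_sphere_zero_iff_norm.1 hz, ofReal_one, one_mul] at e
      rw [← e]
      exact hle _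
    have h3 := norm_nonneg (ω z)
    rw [norm_mul, norm_real, Real.norm_eq_abs, abs_of_pos hc0]
    have h4 : c * D ≤ 1 / 2 := by
      rw [hc, div_mul_eq_mul_div, one_mul, div_le_div_iff₀ (by positivity) two_pos]
      linarith
    calc c * ‖p z‖ ≤ c * (D * (1 - ‖ω z‖ ^ 2)) := by gcongr
      _ = (c * D) * ((1 - ‖ω z‖) * (1 + ‖ω z‖)) := by ring
      _ ≤ 1 / 2 * ((1 - ‖ω z‖) * (1 + ‖ω z‖)) := by
          apply mul_le_mul_of_nonneg_right h4
          apply mul_nonneg <;> linarith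
      _ ≤ 1 - ‖ω z‖ := by nlinarith
  have hsub : closedBall (0 : ℂ) 1 ⊆ ball 0 R := closedBall_subset_ball hR
  have hbd : ∀ (s : ℂ), ‖s‖ = 1 → ∀ z ∈ ball (0 : ℂ) 1, ‖ω z + s * ((c : ℂ) * p z)‖ ≤ 1 := by
    intro s hs z hz
    refine norm_le_of_forall_mem_frontier_norm_le (U := ball (0 : ℂ) 1)
      (f := fun z => ω z + s * ((c : ℂ) * p z)) isBounded_ball ?_ (fun w hw => ?_)
      (subset_closure hz)
    · apply DifferentiableOn.diffContOnCl
      rw [closure_ball _ one_ne_zero]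
      exact (hω.mono hsub).add ((hpd.const_mul _).const_mul _).differentiableOn
    · rw [frontier_ball _ one_ne_zero] at hw
      have := hη w hw
      refine (norm_add_le _ _).trans ?_
      rw [norm_mul, hs, one_mul]
      linarith
  have hfin := hext (fun z => (c : ℂ) * p z) (hpd.const_mul _).differentiableOn (fun z hz => by
    constructor
    · have := hbd 1 norm_one z hz
      rwa [one_mul] at this
    · have := hbd (-1) (by simp) z hz
      rwa [neg_one_mul, ← sub_eq_add_neg] at this) 0 zero_mem_D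
  have hcc : (c : ℂ) ≠ 0 := by exact_mod_cast hc0.ne'
  have h1 : p 0 = 0 := (mul_eq_zero.1 hfin).resolve_left hcc
  simp only [hp] at h1
  obtain ⟨x, _, hx⟩ := Finset.prod_eq_zero_iff.1 h1
  have := eq_zero_of_pow_eq_zero hx
  rw [zero_sub, neg_eq_zero] at this
  exact exp_ne_zero _ this

end

end Pool.Agent.MP07129f
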