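import Pool.Agent.Lib.MP_07129f_an.Avg

/-!
The energy inequality for a pair of strongly starlike functions of small order.
-/

namespace Pool.Agent.MP07129f

open Complex Metric Set Filter Topology MeasureTheory

section
variable {α : ℝ} {F l P F' l' P' : ℂ → ℂ}

/-- the quotient of the two half-plane type functions -/
noncomputable def qt (α : ℝ) (l l' : ℂ → ℂ) (z : ℂ) : ℂ := exp (α * (l' z - l z))

/-- angular distance to the boundary of the strip -/
noncomputable def et (l : ℂ → ℂ) (z : ℂ) : ℝ := Real.pi / 2 - |(l z).im|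

/-- the lower bound function -/
noncomputable def BB (α : ℝ) (l l' P P' : ℂ → ℂ) (z : ℂ) : ℝ :=
  0.518 * |(qt α l l' z).im| - 0.17 * (et l z * ‖qt α l l' z‖) -
    1.675 * (|(qt α l l' z - 1).re| * |(P' z - P z).im|)

lemma qt_diff (h : Dat α F l P) (h' : Dat α F' l' P') :
    DifferentiableOn ℂ (qt α l l') (ball 0 1) :=
  ((h'.l_diff.sub h.l_diff).const_mul (α : ℂ)).cexp

lemma qt_zero (h : Dat α F l P) (h' : Dat α F' l' P') : qt α l l' 0 = 1 := by
  simp [qt, h.l_zero, h'.l_zero]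

lemma et_cont (h : Dat α F l P) : ContinuousOn (et l) (ball 0 1) := by
  have := h.l_diff.continuousOn
  unfold et
  fun_prop

lemma qt_ratio (h : Dat α F l P) (h' : Dat α F' l' P') (hα : 0 < α) (hα1 : α ≤ 1 / 20) {z : ℂ}
    (hz : z ∈ ball (0 : ℂ) 1) : |(qt α l l' z).im| ≤ 0.16 * (qt α l l' z).re := by
  apply ratio_bound
  have h1 := abs_lt.1 (h.im_lt z hz)
  have h2 := abs_lt.1 (h'.im_lt z hz)
  have e : ((α : ℂ) * (l' z - l z)).im = α * ((l' z).im - (l z).im) := by simp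
  rw [e, abs_mul, abs_of_pos hα]
  have h3 : |(l' z).im - (l z).im| ≤ Real.pi := by
    rw [abs_le]; constructor <;> linarith
  have hpi := Real.pi_lt_d4
  have h4 := abs_nonneg ((l' z).im - (l z).im)
  calc α * |(l' z).im - (l z).im| ≤ 1 / 20 * Real.pi := by gcongr
    _ ≤ 0.1571 := by linarith

lemma p_ratio (h : Dat α F l P) (hα : 0 < α) (hα1 : α ≤ 1 / 20) {z : ℂ}
    (hz : z ∈ ball (0 : ℂ) 1) : |(exp (α * l z)).im| ≤ 0.08 * (exp (α * l z)).re := by
  apply ratio_bound'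
  have e : ((α : ℂ) * l z).im = α * (l z).im := by simp
  rw [e, abs_mul, abs_of_pos hα]
  have hpi := Real.pi_lt_d4
  have h1 := h.im_lt z hz
  calc α * |(l z).im| ≤ 1 / 20 * (Real.pi / 2) := by gcongr
    _ ≤ 0.0786 := by linarith

lemma zR_eq (h : Dat α F l P) (h' : Dat α F' l' P') {z : ℂ} (hz : z ∈ ball (0 : ℂ) 1) :
    z * deriv (fun z => P' z - P z) z = exp (α * l z) * (qt α l l' z - 1) := by
  have h1 := (h.P_diff.differentiableAt (ball_nhds hz))
  have h2 := (h'.P_diff.differentiableAt (ball_nhds hz))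
  have e1 : deriv (fun z => P' z - P z) z = deriv P' z - deriv P z := deriv_fun_sub h2 h1
  rw [e1, mul_sub, h.eq z hz, h'.eq z hz, mul_sub, mul_one]
  unfold qt
  rw [← exp_add]
  ring_nf

variable {r : ℝ} (hr0 : 0 < r) (hr1 : r < 1)
include hr0 hr1

lemma Q_le (h : Dat α F l P) (h' : Dat α F' l' P') (hα : 0 < α) (hα1 : α ≤ 1 / 20) :
    A r (fun z => (qt α l l' z).im ^ 2) ≤ A r (fun z => |(qt α l l' z).im|) / 5 := by
  have hd := qt_diff h h'
  have hc := hd.continuousOn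
  have h1 : A r (fun z => (qt α l l' z).im ^ 2) ≤
      A r (fun z => 1 / 5 * |(qt α l l' z).im| + 1 / 10 * ((qt α l l' z - 1) ^ 2).re) := by
    apply A_mono hr0 hr1 (by fun_prop) (by fun_prop)
    intro z hz
    have := im_sq_le (qt_ratio h h' hα hα1 (sphere_sub hr1 hz))
    linarith
  rw [A_add hr0 hr1 (by fun_prop) (by fun_prop), A_mul, A_mul,
    A_re hr0 hr1 (h := fun z => (qt α l l' z - 1) ^ 2) ((hd.sub_const 1).pow 2), qt_zero h h'] at h1
  simp at h1
  linarith

lemma A_p (h : Dat α F l P) (hα : 0 < α) (hα1 : α ≤ 1 / 20) :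
    A r (fun z => ‖exp (α * l z)‖ ^ 2) ≤ 1.013 := by
  have hd : DifferentiableOn ℂ (fun z => exp (α * l z)) (ball 0 1) := (h.l_diff.const_mul (α : ℂ)).cexp
  have hc := hd.continuousOn
  have h1 : A r (fun z => ‖exp (α * l z)‖ ^ 2) ≤ A r (fun z => 1.013 * (exp (α * l z) ^ 2).re) := by
    apply A_mono hr0 hr1 (by fun_prop) (by fun_prop)
    intro z hz
    exact norm_sq_le' (p_ratio h hα hα1 (sphere_sub hr1 hz))
  rw [A_mul, A_re hr0 hr1 (h := fun z => exp (α * l z) ^ 2) (hd.pow 2), h.l_zero] at h1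
  simpa using h1

lemma A_w (h : Dat α F l P) (h' : Dat α F' l' P') (hα : 0 < α) (hα1 : α ≤ 1 / 20) :
    A r (fun z => ‖qt α l l' z‖ ^ 2) ≤ 1.06 := by
  have hd := qt_diff h h'
  have hc := hd.continuousOn
  have h1 : A r (fun z => ‖qt α l l' z‖ ^ 2) ≤ A r (fun z => 1.06 * (qt α l l' z ^ 2).re) := by
    apply A_mono hr0 hr1 (by fun_prop) (by fun_prop)
    intro z hz
    exact norm_sq_le (qt_ratio h h' hα hα1 (sphere_sub hr1 hz))
  rw [A_mul, A_re hr0 hr1 (h := fun z => qt α l l' z ^ 2) (hd.pow 2), qt_zero h h'] at h1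
  simpa using h1

lemma A_R (h : Dat α F l P) (h' : Dat α F' l' P') (hα : 0 < α) (hα1 : α ≤ 1 / 20) :
    A r (fun z => ‖P' z - P z‖ ^ 2) ≤ 3.34 * A r (fun z => (qt α l l' z).im ^ 2) := by
  have hd := qt_diff h h'
  have hc := hd.continuousOn
  have hdp : DifferentiableOn ℂ (fun z => exp (α * l z)) (ball 0 1) := (h.l_diff.const_mul (α : ℂ)).cexp
  have hcp := hdp.continuousOn
  have hR0 : (fun z => P' z - P z) 0 = 0 := by simp [h.P_zero, h'.P_zero]
  have h1 := hardy hr0 hr1 (h'.P_diff.sub h.P_diff) hR0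
  have h2 : A r (fun z => ‖z * deriv (fun z => P' z - P z) z‖) =
      A r (fun z => ‖exp (α * l z)‖ * ‖qt α l l' z - 1‖) := by
    apply A_congr hr0
    intro z hz
    rw [zR_eq h h' (sphere_sub hr1 hz), norm_mul]
  have h3 := A_CS hr0 hr1 (h := fun z => ‖exp (α * l z)‖) (k := fun z => ‖qt α l l' z - 1‖)
    (by fun_prop) (by fun_prop)
  have h4 : A r (fun z => ‖qt α l l' z - 1‖ ^ 2) = 2 * A r (fun z => (qt α l l' z).im ^ 2) := by
    have := A_norm_sq hr0 hr1 (hd.sub_const 1) (by simp [qt_zero h h'])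
    simpa using this
  have h5 := A_p hr0 hr1 h hα hα1
  have h6 : 0 ≤ A r (fun z => (qt α l l' z).im ^ 2) := A_nonneg hr0 fun z _ => sq_nonneg _
  rw [h4] at h3
  have hpi : Real.pi ^ 2 / 6 ≤ 1.645 := by
    have := Real.pi_lt_d4
    have := Real.pi_pos
    nlinarith
  change A r (fun z => ‖P' z - P z‖ ^ 2) ≤
    Real.pi ^ 2 / 6 * A r (fun z => ‖z * deriv (fun z => P' z - P z) z‖) ^ 2 at h1
  rw [h2] at h1
  calc A r (fun z => ‖P' z - P z‖ ^ 2)
      ≤ Real.pi ^ 2 / 6 * A r (fun z => ‖exp (α * l z)‖ * ‖qt α l l' z - 1‖) ^ 2 := h1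
    _ ≤ 1.645 * (A r (fun z => ‖exp (α * l z)‖ ^ 2) *
          (2 * A r (fun z => (qt α l l' z).im ^ 2))) := by gcongr
    _ ≤ 1.645 * (1.013 * (2 * A r (fun z => (qt α l l' z).im ^ 2))) := by gcongr
    _ ≤ _ := by nlinarith

lemma core (h : Dat α F l P) (h' : Dat α F' l' P') (hα : 0 < α) (hα1 : α ≤ 1 / 20) {ε : ℝ}
    (hε : 0 < ε) :
    0.08 * A r (fun z => |(qt α l l' z).im|) ≤ A r (BB α l l' P P') +
      0.1 * (A r (fun z => et l z ^ 2) / ε + 1.06 * ε) := by
  have hd := qt_diff h h'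
  have hc := hd.continuousOn
  have hec := et_cont h
  have hPc := h.P_diff.continuousOn
  have hPc' := h'.P_diff.continuousOn
  set m := A r (fun z => |(qt α l l' z).im|) with hm
  set Q := A r (fun z => (qt α l l' z).im ^ 2) with hQ
  have hm0 : 0 ≤ m := A_nonneg hr0 fun z _ => abs_nonneg _
  have hQ0 : 0 ≤ Q := A_nonneg hr0 fun z _ => sq_nonneg _
  have hQm := Q_le hr0 hr1 h h' hα hα1
  have hRe : A r (fun z => (qt α l l' z - 1).re ^ 2) = Q := by
    have := A_sq hr0 hr1 (hd.sub_const 1) (by simp [qt_zero h h'])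
    rw [hQ]
    simpa using this
  have hRIm : 2 * A r (fun z => (P' z - P z).im ^ 2) ≤ 3.34 * Q := by
    have := A_norm_sq hr0 hr1 (h'.P_diff.sub h.P_diff) (by simp [h.P_zero, h'.P_zero])
    change A r (fun z => ‖P' z - P z‖ ^ 2) = 2 * A r (fun z => (P' z - P z).im ^ 2) at this
    rw [← this]
    exact A_R hr0 hr1 h h' hα hα1
  have hprod : A r (fun z => |(qt α l l' z - 1).re| * |(P' z - P z).im|) ≤ 1.2924 * Q := by
    have h1 : A r (fun z => |(qt α l l' z - 1).re| * |(P' z - P z).im|) ≤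
        A r (fun z => 0.65 * (qt α l l' z - 1).re ^ 2 + (1 / 2.6) * (P' z - P z).im ^ 2) := by
      apply A_mono hr0 hr1 (by fun_prop) (by fun_prop)
      intro z _
      have := sq_nonneg (1.3 * |(qt α l l' z - 1).re| - |(P' z - P z).im|)
      rw [← sq_abs (qt α l l' z - 1).re, ← sq_abs (P' z - P z).im]
      nlinarith
    rw [A_add hr0 hr1 (by fun_prop) (by fun_prop), A_mul, A_mul, hRe] at h1
    refine h1.trans ?_
    norm_num at hRIm ⊢
    linarith
  have hew : A r (fun z => et l z * ‖qt α l l' z‖) ≤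
      1 / 2 * (A r (fun z => et l z ^ 2) / ε + 1.06 * ε) := by
    have h1 : A r (fun z => et l z * ‖qt α l l' z‖) ≤
        A r (fun z => (1 / (2 * ε)) * et l z ^ 2 + (ε / 2) * ‖qt α l l' z‖ ^ 2) := by
      apply A_mono hr0 hr1 (by fun_prop) (by fun_prop)
      intro z _
      have h2 := sq_nonneg (et l z - ε * ‖qt α l l' z‖)
      have h3 : (1 / (2 * ε)) * et l z ^ 2 + (ε / 2) * ‖qt α l l' z‖ ^ 2 -
          et l z * ‖qt α l l' z‖ = (1 / (2 * ε)) * (et l z - ε * ‖qt α l l' z‖) ^ 2 := by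
        field_simp
        ring
      have h4 : 0 ≤ (1 / (2 * ε)) * (et l z - ε * ‖qt α l l' z‖) ^ 2 := by positivity
      linarith
    rw [A_add hr0 hr1 (by fun_prop) (by fun_prop), A_mul, A_mul] at h1
    have h5 := A_w hr0 hr1 h h' hα hα1
    have h6 : (ε / 2) * A r (fun z => ‖qt α l l' z‖ ^ 2) ≤ (ε / 2) * 1.06 := by gcongr
    have h7 : 1 / 2 * (A r (fun z => et l z ^ 2) / ε + 1.06 * ε) =
        (1 / (2 * ε)) * A r (fun z => et l z ^ 2) + (ε / 2) * 1.06 := by
      field_simp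
    rw [h7]
    linarith
  have hBB : A r (BB α l l' P P') = 0.518 * m - 0.17 * A r (fun z => et l z * ‖qt α l l' z‖) -
      1.675 * A r (fun z => |(qt α l l' z - 1).re| * |(P' z - P z).im|) := by
    unfold BB
    rw [A_sub hr0 hr1 (by fun_prop) (by fun_prop), A_sub hr0 hr1 (by fun_prop) (by fun_prop),
      A_mul, A_mul, A_mul]
  have hA : 0 ≤ A r (fun z => et l z ^ 2) / ε + 1.06 * ε := by
    have : 0 ≤ A r (fun z => et l z ^ 2) := A_nonneg hr0 fun z _ => sq_nonneg _
    positivity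
  rw [hBB]
  norm_num at *
  linarith

/-- mean square of `R` -/
lemma A_R_le (h : Dat α F l P) (h' : Dat α F' l' P') (hα : 0 < α) (hα1 : α ≤ 1 / 20) :
    A r (fun z => ‖P' z - P z‖ ^ 2) ≤ A r (fun z => |(qt α l l' z).im|) := by
  have h1 := A_R hr0 hr1 h h' hα hα1
  have h2 := Q_le hr0 hr1 h h' hα hα1
  have h3 : 0 ≤ A r (fun z => |(qt α l l' z).im|) := A_nonneg hr0 fun z _ => abs_nonneg _
  linarith

omit hr1 in
/-- point evaluation -/
lemma norm_le_A (hr1 : r < 1) {R : ℂ → ℂ} (hR : DifferentiableOn ℂ R (ball 0 1)) {w : ℂ}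
    (hw : ‖w‖ < r) : ‖R w‖ ≤ r / (r - ‖w‖) * A r (fun z => ‖R z‖) := by
  have hd : DiffContOnCl ℂ R (ball 0 |r|) := by
    rw [abs_of_pos hr0]
    apply DifferentiableOn.diffContOnCl
    rw [closure_ball _ hr0.ne']
    exact hR.mono (closedBall_sub hr1)
  have h1 := hd.circleAverage_smul_div (w := w) (by
    rw [abs_of_pos hr0, mem_ball_zero_iff]; exact hw)
  rw [← h1, Real.circleAverage_def, norm_smul, A, Real.circleAverage_def, smul_eq_mul]
  have h2pi := Real.two_pi_pos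
  rw [norm_inv, Real.norm_eq_abs, abs_of_pos h2pi]
  have hmem : ∀ θ : ℝ, circleMap 0 r θ ∈ ball (0 : ℂ) 1 := fun θ =>
    sphere_sub hr1 (circleMap_mem_sphere 0 hr0.le θ)
  have hcm : Continuous (circleMap 0 r) := continuous_circleMap 0 r
  have hRc : Continuous fun θ => R (circleMap 0 r θ) := hR.continuousOn.comp_continuous hcm hmem
  have hn : ∀ θ : ℝ, ‖circleMap 0 r θ‖ = r := fun θ => by simp [abs_of_pos hr0]
  have hne : ∀ θ : ℝ, circleMap 0 r θ - w ≠ 0 := by
    intro θ h0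
    have := hn θ
    rw [sub_eq_zero.1 h0] at this
    linarith
  have hq : Continuous fun θ => (circleMap 0 r θ - 0) / (circleMap 0 r θ - w) :=
    (hcm.sub continuous_const).div (hcm.sub continuous_const) hne
  calc (2 * Real.pi)⁻¹ * ‖∫ θ in (0 : ℝ)..2 * Real.pi,
        ((circleMap 0 r θ - 0) / (circleMap 0 r θ - w)) • R (circleMap 0 r θ)‖
      ≤ (2 * Real.pi)⁻¹ * ∫ θ in (0 : ℝ)..2 * Real.pi, r / (r - ‖w‖) * ‖R (circleMap 0 r θ)‖ := by
        gcongr
        refine (intervalIntegral.norm_integral_le_integral_norm h2pi.le).trans ?_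
        apply intervalIntegral.integral_mono_on h2pi.le
        · exact (hq.smul hRc).norm.intervalIntegrable _ _
        · exact (continuous_const.mul hRc.norm).intervalIntegrable _ _
        · intro θ _
          rw [norm_smul, norm_div, sub_zero, hn]
          have h3 : r - ‖w‖ ≤ ‖circleMap 0 r θ - w‖ := by
            have := norm_sub_norm_le (circleMap 0 r θ) w
            rw [hn] at this
            exact this
          have h4 : 0 < r - ‖w‖ := by linarith
          gcongr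
    _ = _ := by
        rw [intervalIntegral.integral_const_mul]
        ring

end

end Pool.Agent.MP07129f
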