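import Mathlib

/-!
Strongly starlike functions: representation `F z = z * exp (P z)` with `z * P' z = exp (α * l z) - 1`,
univalence, and bounds.
-/

namespace Pool.Agent.MP07129f

open Complex Metric Set Filter Topology MeasureTheory

/-- data attached to a strongly starlike function -/
structure Dat (α : ℝ) (F l P : ℂ → ℂ) : Prop where
  l_diff : DifferentiableOn ℂ l (ball 0 1)
  P_diff : DifferentiableOn ℂ P (ball 0 1)
  l_zero : l 0 = 0
  P_zero : P 0 = 0
  im_lt : ∀ z ∈ ball (0 : ℂ) 1, |(l z).im| < Real.pi / 2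
  eq : ∀ z ∈ ball (0 : ℂ) 1, z * deriv P z = exp (α * l z) - 1
  F_eq : ∀ z ∈ ball (0 : ℂ) 1, F z = z * exp (P z)

lemma zero_mem_D : (0 : ℂ) ∈ ball (0 : ℂ) 1 := mem_ball_self one_pos

lemma ball_nhds {z : ℂ} (hz : z ∈ ball (0 : ℂ) 1) : ball (0 : ℂ) 1 ∈ 𝓝 z := isOpen_ball.mem_nhds hz

/-- a primitive normalised at `0` -/
lemma exists_primitive {h : ℂ → ℂ} (hh : DifferentiableOn ℂ h (ball 0 1)) :
    ∃ P : ℂ → ℂ, DifferentiableOn ℂ P (ball 0 1) ∧ P 0 = 0 ∧
      ∀ z ∈ ball (0 : ℂ) 1, HasDerivAt P (h z) z := by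
  obtain ⟨g, hg⟩ := hh.isExactOn_ball
  refine ⟨fun z => g z - g 0, fun z hz => ((hg z hz).sub_const _).differentiableAt.differentiableWithinAt,
    by simp, fun z hz => (hg z hz).sub_const _⟩

section fromF
variable {α : ℝ} {F l P : ℂ → ℂ}

lemma Dat.hasDerivAt_F (h : Dat α F l P) {z : ℂ} (hz : z ∈ ball (0 : ℂ) 1) :
    HasDerivAt F (exp (P z) * exp (α * l z)) z := by
  have hP : HasDerivAt P (deriv P z) z := (h.P_diff.differentiableAt (ball_nhds hz)).hasDerivAt
  have h1 : HasDerivAt (fun z => z * exp (P z)) (1 * exp (P z) + z * (exp (P z) * deriv P z)) z :=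
    (hasDerivAt_id z).mul hP.cexp
  have h2 : HasDerivAt F (1 * exp (P z) + z * (exp (P z) * deriv P z)) z := by
    refine h1.congr_of_eventuallyEq ?_
    filter_upwards [ball_nhds hz] with w hw using h.F_eq w hw
  convert h2 using 1
  have := h.eq z hz
  linear_combination (-exp (P z)) * this

lemma Dat.quot (h : Dat α F l P) {z : ℂ} (hz : z ∈ ball (0 : ℂ) 1) (hz0 : z ≠ 0) :
    z * deriv F z / F z = exp (α * l z) := by
  rw [(h.hasDerivAt_F hz).deriv, h.F_eq z hz]
  field_simp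

/-- functions with positive real derivative are injective -/
lemma injOn_of_re_pos {Ψ Ψ' : ℂ → ℂ} {S : Set ℂ} (hS : Convex ℝ S)
    (hd : ∀ z ∈ S, HasDerivAt Ψ (Ψ' z) z) (hpos : ∀ z ∈ S, 0 < (Ψ' z).re) : InjOn Ψ S := by
  intro a ha b hb hab
  by_contra hne
  have hba : b - a ≠ 0 := sub_ne_zero.2 (Ne.symm hne)
  set φ : ℝ → ℝ := fun t => (Ψ (a + t * (b - a)) * (starRingEnd ℂ) (b - a)).re with hφ
  have hmem : ∀ t ∈ Icc (0 : ℝ) 1, a + t * (b - a) ∈ S := by
    intro t ht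
    have := hS ha hb (sub_nonneg.2 ht.2) ht.1 (by ring : 1 - t + t = 1)
    convert this using 1
    simp only [real_smul]
    push_cast
    ring
  have hder : ∀ t ∈ Icc (0 : ℝ) 1, HasDerivAt φ
      ((Ψ' (a + t * (b - a)) * (b - a) * (starRingEnd ℂ) (b - a)).re) t := by
    intro t ht
    have h1 : HasDerivAt (fun t : ℝ => a + (t : ℂ) * (b - a)) (b - a) t := by
      have := ((ofRealCLM.hasDerivAt (x := t)).mul_const (b - a)).const_add a
      simpa using this
    have h2 := (hd _ (hmem t ht)).comp t h1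
    have h3 := h2.mul_const ((starRingEnd ℂ) (b - a))
    have h4 := (reCLM.hasFDerivAt (x := Ψ (a + t * (b - a)) * (starRingEnd ℂ) (b - a))).comp_hasDerivAt t h3
    exact h4
  have hval : ∀ t ∈ Icc (0 : ℝ) 1,
      0 < (Ψ' (a + t * (b - a)) * (b - a) * (starRingEnd ℂ) (b - a)).re := by
    intro t ht
    rw [mul_assoc, mul_conj, re_mul_ofReal]
    exact mul_pos (hpos _ (hmem t ht)) (normSq_pos.2 hba)
  have hmono : StrictMonoOn φ (Icc 0 1) := by
    apply strictMonoOn_of_deriv_pos (convex_Icc 0 1)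
    · exact fun t ht => (hder t ht).continuousAt.continuousWithinAt
    · intro t ht
      rw [interior_Icc] at ht
      rw [(hder t (Ioo_subset_Icc_self ht)).deriv]
      exact hval t (Ioo_subset_Icc_self ht)
  have h5 := hmono (left_mem_Icc.2 zero_le_one) (right_mem_Icc.2 zero_le_one) zero_lt_one
  simp only [hφ] at h5
  rw [ofReal_zero, ofReal_one, zero_mul, add_zero, one_mul, add_sub_cancel, hab] at h5
  exact lt_irrefl _ h5

/-- starlike functions are univalent -/
lemma Dat.injOn (h : Dat α F l P) (hα : 0 < α) (hα1 : α ≤ 1) : InjOn F (ball 0 1) := by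
  set S : Set ℂ := {ζ | ζ.re < 0} with hS
  have hSD : ∀ ζ ∈ S, exp ζ ∈ ball (0 : ℂ) 1 := by
    intro ζ hζ
    rw [mem_ball_zero_iff, norm_exp]
    rw [← Real.exp_zero]
    exact Real.exp_lt_exp.2 hζ
  have hderiv : ∀ ζ ∈ S, HasDerivAt (fun ζ => ζ + P (exp ζ)) (exp (α * l (exp ζ))) ζ := by
    intro ζ hζ
    have hP : HasDerivAt P (deriv P (exp ζ)) (exp ζ) :=
      (h.P_diff.differentiableAt (ball_nhds (hSD ζ hζ))).hasDerivAt
    have h1 := (hasDerivAt_id ζ).add (hP.comp ζ (hasDerivAt_exp ζ))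
    refine h1.congr_deriv ?_
    have := h.eq _ (hSD ζ hζ)
    linear_combination this
  have hinj : InjOn (fun ζ => ζ + P (exp ζ)) S := by
    apply injOn_of_re_pos (convex_halfSpace_re_lt 0) hderiv
    intro ζ hζ
    rw [exp_re]
    apply mul_pos (Real.exp_pos _)
    apply Real.cos_pos_of_mem_Ioo
    have h1 := h.im_lt _ (hSD ζ hζ)
    rw [abs_lt] at h1
    have h2 : ((α : ℂ) * l (exp ζ)).im = α * (l (exp ζ)).im := by simp
    rw [h2]
    constructor
    · nlinarith [Real.pi_pos]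
    · nlinarith [Real.pi_pos]
  intro z1 hz1 z2 hz2 h12
  rw [h.F_eq z1 hz1, h.F_eq z2 hz2] at h12
  by_cases h1 : z1 = 0
  · subst h1
    rw [zero_mul] at h12
    rcases mul_eq_zero.1 h12.symm with h2 | h2
    · exact h2.symm
    · exact absurd h2 (exp_ne_zero _)
  by_cases h2 : z2 = 0
  · subst h2
    rw [zero_mul] at h12
    rcases mul_eq_zero.1 h12 with h3 | h3
    · exact h3
    · exact absurd h3 (exp_ne_zero _)
  have hlog : ∀ z ∈ ball (0 : ℂ) 1, z ≠ 0 → log z ∈ S := by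
    intro z hz hz0
    change (log z).re < 0
    rw [log_re]
    exact Real.log_neg (norm_pos_iff.2 hz0) (mem_ball_zero_iff.1 hz)
  have e1 : exp (log z1 + P (exp (log z1))) = exp (log z2 + P (exp (log z2))) := by
    rw [exp_add, exp_add, exp_log h1, exp_log h2, h12]
  obtain ⟨k, hk⟩ := exp_eq_exp_iff_exists_int.1 e1
  have e2 : exp (log z2 + k * (2 * Real.pi * I)) = exp (log z2) := by
    rw [exp_add, exp_int_mul_two_pi_mul_I, mul_one]
  have e3 : log z1 = log z2 + k * (2 * Real.pi * I) := by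
    apply hinj (hlog z1 hz1 h1)
    · change (log z2 + k * (2 * Real.pi * I)).re < 0
      have : ((k : ℂ) * (2 * Real.pi * I)).re = 0 := by simp
      rw [add_re, this, add_zero]
      exact hlog z2 hz2 h2
    · simp only
      rw [e2, hk]
      ring
  rw [← exp_log h1, e3, e2, exp_log h2]

lemma Dat.im_abs_lt (h : Dat α F l P) (hα : 0 < α) {z : ℂ} (hz : z ∈ ball (0 : ℂ) 1) :
    |((α : ℂ) * l z).im| < α * Real.pi / 2 := by
  have h2 : ((α : ℂ) * l z).im = α * (l z).im := by simp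
  rw [h2, abs_mul, abs_of_pos hα]
  have := h.im_lt z hz
  nlinarith

/-- the properties defining the class `S^*(α)` -/
lemma Dat.props (h : Dat α F l P) (hα : 0 < α) (hα1 : α ≤ 1) :
    DifferentiableOn ℂ F (ball 0 1) ∧ InjOn F (ball 0 1) ∧ F 0 = 0 ∧ deriv F 0 = 1 ∧
    ∀ z ∈ ball (0 : ℂ) 1, z ≠ 0 → 0 < (z * deriv F z / F z).re ∧
      |arg (z * deriv F z / F z)| < α * Real.pi / 2 := by
  refine ⟨fun z hz => (h.hasDerivAt_F hz).differentiableAt.differentiableWithinAt, h.injOn hα hα1,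
    ?_, ?_, ?_⟩
  · rw [h.F_eq 0 zero_mem_D, zero_mul]
  · rw [(h.hasDerivAt_F zero_mem_D).deriv, h.P_zero, h.l_zero]
    simp
  · intro z hz hz0
    rw [h.quot hz hz0]
    have h1 := h.im_abs_lt hα hz
    have h2 := abs_lt.1 h1
    have hpi := Real.pi_pos
    constructor
    · rw [exp_re]
      apply mul_pos (Real.exp_pos _)
      apply Real.cos_pos_of_mem_Ioo
      constructor
      · nlinarith
      · nlinarith
    · have e : arg (exp ((α : ℂ) * l z)) = ((α : ℂ) * l z).im := by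
        rw [← log_im, log_exp (by nlinarith) (by nlinarith)]
      rw [e]
      exact h1

/-- every strongly starlike function has data -/
lemma exists_dat (hα : 0 < α) (hF : DifferentiableOn ℂ F (ball 0 1))
    (hinj : InjOn F (ball 0 1)) (hF0 : F 0 = 0) (hF1 : deriv F 0 = 1)
    (hq : ∀ z ∈ ball (0 : ℂ) 1, z ≠ 0 → 0 < (z * deriv F z / F z).re ∧
      |arg (z * deriv F z / F z)| < α * Real.pi / 2) : ∃ l P : ℂ → ℂ, Dat α F l P := by
  set h : ℂ → ℂ := dslope F 0 with hh
  have hd : DifferentiableOn ℂ h (ball 0 1) := (differentiableOn_dslope (ball_nhds zero_mem_D)).2 hF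
  have hFh : ∀ z, F z = z * h z := by
    intro z
    have := sub_smul_dslope F 0 z
    rw [hF0, sub_zero, sub_zero, smul_eq_mul] at this
    exact this.symm
  have hh0 : h 0 = 1 := by rw [hh, dslope_same, hF1]
  have hne : ∀ z ∈ ball (0 : ℂ) 1, h z ≠ 0 := by
    intro z hz h0
    by_cases hz0 : z = 0
    · rw [hz0, hh0] at h0; exact one_ne_zero h0
    · have h1 := hFh z
      rw [h0, mul_zero, ← hF0] at h1
      exact hz0 (hinj hz zero_mem_D h1)
  have hdd : DifferentiableOn ℂ (fun z => deriv h z / h z) (ball 0 1) :=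
    (hd.deriv isOpen_ball).div hd hne
  obtain ⟨P, hP1, hP2, hP3⟩ := exists_primitive hdd
  have hexp : ∀ z ∈ ball (0 : ℂ) 1, h z = exp (P z) := by
    have hderiv : ∀ z ∈ ball (0 : ℂ) 1, HasDerivAt (fun z => h z * exp (-P z)) 0 z := by
      intro z hz
      have h1 : HasDerivAt h (deriv h z) z := (hd.differentiableAt (ball_nhds hz)).hasDerivAt
      have h2 := h1.mul (hP3 z hz).neg.cexp
      refine h2.congr_deriv ?_
      have := hne z hz
      field_simp
      ring
    intro z hz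
    have h3 := isOpen_ball.is_const_of_deriv_eq_zero (convex_ball (0 : ℂ) 1).isPreconnected
      (fun z hz => (hderiv z hz).differentiableAt.differentiableWithinAt)
      (fun z hz => (hderiv z hz).deriv) hz zero_mem_D
    simp only [hh0, hP2, neg_zero, exp_zero, mul_one] at h3
    rw [exp_neg] at h3
    field_simp at h3
    exact h3
  have hp : ∀ z ∈ ball (0 : ℂ) 1, z ≠ 0 → z * deriv F z / F z = 1 + z * deriv P z := by
    intro z hz hz0
    have h1 : HasDerivAt h (deriv h z) z := (hd.differentiableAt (ball_nhds hz)).hasDerivAt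
    have h2 : HasDerivAt F (1 * h z + z * deriv h z) z := by
      have := (hasDerivAt_id z).mul h1
      refine this.congr_of_eventuallyEq (Eventually.of_forall fun w => ?_)
      rw [hFh w]; rfl
    rw [h2.deriv, (hP3 z hz).deriv, hFh z]
    have := hne z hz
    field_simp
  set p : ℂ → ℂ := fun z => 1 + z * deriv P z with hpdef
  have hp_diff : DifferentiableOn ℂ p (ball 0 1) :=
    (differentiableOn_id.mul (hP1.deriv isOpen_ball)).const_add 1
  have hp0 : p 0 = 1 := by simp [hpdef]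
  have hp_re : ∀ z ∈ ball (0 : ℂ) 1, 0 < (p z).re ∧ |arg (p z)| < α * Real.pi / 2 := by
    intro z hz
    by_cases hz0 : z = 0
    · rw [hz0, hp0]
      simp only [one_re, arg_one, abs_zero]
      exact ⟨one_pos, by positivity⟩
    · have := hq z hz hz0
      rw [hp z hz hz0] at this
      exact this
  refine ⟨fun z => (α : ℂ)⁻¹ * log (p z), P, ⟨?_, hP1, ?_, hP2, ?_, ?_, ?_⟩⟩
  · exact (hp_diff.clog fun z hz => Or.inl (hp_re z hz).1).const_mul _
  · simp [hp0]
  · intro z hz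
    have h1 : ((α : ℂ)⁻¹ * log (p z)).im = α⁻¹ * arg (p z) := by
      rw [← ofReal_inv, im_ofReal_mul, log_im]
    rw [h1, abs_mul, abs_of_pos (inv_pos.2 hα)]
    have h2 := (hp_re z hz).2
    rw [inv_mul_lt_iff₀ hα]
    linarith
  · intro z hz
    have h1 : (α : ℂ) ≠ 0 := by exact_mod_cast hα.ne'
    have h2 : p z ≠ 0 := by
      intro h0
      have := (hp_re z hz).1
      rw [h0] at this
      simp at this
    rw [mul_inv_cancel_left₀ h1, exp_log h2]
    simp [hpdef]
  · intro z hz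
    rw [hFh z, hexp z hz]

end fromF

/-! ### bounds -/

/-- `|log((1+w)/(1-w))| ≤ log((1+|w|)/(1-|w|))` -/
lemma norm_log_sub_log_le {w : ℂ} (hw : ‖w‖ < 1) :
    ‖log (1 + w) - log (1 - w)‖ ≤ Real.log (1 + ‖w‖) - Real.log (1 - ‖w‖) := by
  have h1 := (hasSum_taylorSeries_log hw).add (hasSum_taylorSeries_neg_log hw)
  have hr : ‖((‖w‖ : ℝ) : ℂ)‖ < 1 := by rwa [norm_real, norm_norm]
  have h2 := (hasSum_taylorSeries_log hr).add (hasSum_taylorSeries_neg_log hr)
  have e1 : log (1 + ((‖w‖ : ℝ) : ℂ)) + -log (1 - ((‖w‖ : ℝ) : ℂ)) =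
      ((Real.log (1 + ‖w‖) - Real.log (1 - ‖w‖) : ℝ) : ℂ) := by
    have h3 : (0 : ℝ) ≤ 1 + ‖w‖ := by positivity
    have h4 : (0 : ℝ) ≤ 1 - ‖w‖ := by linarith
    push_cast
    rw [ofReal_log h3, ofReal_log h4]
    push_cast
    ring
  rw [e1] at h2
  have e2 : ∀ n : ℕ, (-1 : ℂ) ^ (n + 1) * ((‖w‖ : ℝ) : ℂ) ^ n / n + ((‖w‖ : ℝ) : ℂ) ^ n / n =
      ((‖(-1 : ℂ) ^ (n + 1) * w ^ n / n + w ^ n / n‖ : ℝ) : ℂ) := by
    intro n
    have e3 : (-1 : ℂ) ^ (n + 1) * w ^ n / n + w ^ n / n = ((-1 : ℂ) ^ (n + 1) + 1) * (w ^ n / n) := by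
      ring
    rw [e3, norm_mul, norm_div, norm_pow, norm_natCast]
    rcases neg_one_pow_eq_or ℂ (n + 1) with h | h
    · rw [h]
      norm_num
      ring
    · rw [h]
      norm_num
      ring
  simp_rw [e2] at h2
  have h5 := Complex.hasSum_ofReal.1 h2
  have h6 := h5.summable
  rw [sub_eq_add_neg, ← h1.tsum_eq, ← h5.tsum_eq]
  exact norm_tsum_le_tsum_norm h6

section bounds
variable {α : ℝ} {F l P : ℂ → ℂ}

/-- the Schwarz function of a map into the strip -/
noncomputable def sch (l : ℂ → ℂ) (z : ℂ) : ℂ := (exp (l z) - 1) / (exp (l z) + 1)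

lemma re_exp_pos {w : ℂ} (h : |w.im| < Real.pi / 2) : 0 < (exp w).re := by
  rw [exp_re]
  exact mul_pos (Real.exp_pos _) (Real.cos_pos_of_mem_Ioo (abs_lt.1 h))

lemma norm_cayley_lt {y : ℂ} (hy : 0 < y.re) : ‖(y - 1) / (y + 1)‖ < 1 := by
  have h1 : y + 1 ≠ 0 := by
    intro h
    have := congrArg Complex.re h
    simp at this
    linarith
  rw [norm_div, div_lt_one (norm_pos_iff.2 h1)]
  have h2 : ‖y - 1‖ ^ 2 < ‖y + 1‖ ^ 2 := by
    rw [← normSq_eq_norm_sq, ← normSq_eq_norm_sq, normSq_apply, normSq_apply]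
    simp
    nlinarith
  exact lt_of_pow_lt_pow_left₀ 2 (norm_nonneg _) h2

lemma Dat.norm_l_le (h : Dat α F l P) {z : ℂ} (hz : z ∈ ball (0 : ℂ) 1) :
    ‖l z‖ ≤ Real.log (1 + ‖z‖) - Real.log (1 - ‖z‖) := by
  have hre : ∀ z ∈ ball (0 : ℂ) 1, 0 < (exp (l z)).re := fun z hz => re_exp_pos (h.im_lt z hz)
  have hne : ∀ z ∈ ball (0 : ℂ) 1, exp (l z) + 1 ≠ 0 := by
    intro z hz h0
    have := congrArg Complex.re h0
    rw [add_re, one_re, zero_re] at this
    linarith [hre z hz]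
  have hlt : ∀ z ∈ ball (0 : ℂ) 1, ‖sch l z‖ < 1 := fun z hz => norm_cayley_lt (hre z hz)
  have hsd : DifferentiableOn ℂ (sch l) (ball 0 1) :=
    (h.l_diff.cexp.sub_const 1).div (h.l_diff.cexp.add_const 1) hne
  have h0 : sch l 0 = 0 := by simp [sch, h.l_zero]
  have hz' := mem_ball_zero_iff.1 hz
  have h1 : ‖sch l z‖ ≤ ‖z‖ := norm_le_norm_of_mapsTo_ball hsd
    (fun w hw => mem_closedBall_zero_iff.2 (hlt w hw).le) h0 hz'
  have hs := hlt z hz
  have h2 : l z = log (1 + sch l z) - log (1 - sch l z) := by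
    have ha : 0 < (1 + sch l z).re := by
      rw [add_re, one_re]
      have := abs_le.1 ((abs_re_le_norm (sch l z)).trans hs.le)
      have := (abs_re_le_norm (sch l z)).trans_lt hs
      rw [abs_lt] at this
      linarith
    have hb : 0 < (1 - sch l z).re := by
      rw [sub_re, one_re]
      have := (abs_re_le_norm (sch l z)).trans_lt hs
      rw [abs_lt] at this
      linarith
    have ha0 : 1 + sch l z ≠ 0 := by
      intro h; rw [h] at ha; simp at ha
    have hb0 : 1 - sch l z ≠ 0 := by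
      intro h; rw [h] at hb; simp at hb
    have ha1 : |(log (1 + sch l z)).im| < Real.pi / 2 := by
      rw [log_im]; exact abs_arg_lt_pi_div_two_iff.2 (Or.inl ha)
    have hb1 : |(log (1 - sch l z)).im| < Real.pi / 2 := by
      rw [log_im]; exact abs_arg_lt_pi_div_two_iff.2 (Or.inl hb)
    have hc := abs_lt.1 (h.im_lt z hz)
    rw [abs_lt] at ha1 hb1
    apply exp_inj_of_neg_pi_lt_of_le_pi
    · linarith
    · linarith
    · rw [sub_im]; linarith
    · rw [sub_im]; linarith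
    · rw [exp_sub, exp_log ha0, exp_log hb0]
      have := hne z hz
      rw [eq_div_iff hb0]
      unfold sch
      field_simp
      ring
  rw [h2]
  refine (norm_log_sub_log_le hs).trans ?_
  have h3 := norm_nonneg (sch l z)
  have h4 := norm_nonneg z
  have h5 : Real.log (1 + ‖sch l z‖) ≤ Real.log (1 + ‖z‖) :=
    Real.log_le_log (by linarith) (by linarith)
  have h6 : Real.log (1 - ‖z‖) ≤ Real.log (1 - ‖sch l z‖) :=
    Real.log_le_log (by linarith) (by linarith)
  linarith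

lemma Dat.norm_q_sub_one (h : Dat α F l P) (hα : 0 < α) (hα1 : α ≤ 1 / 2) {z : ℂ}
    (hz : z ∈ ball (0 : ℂ) 1) :
    ‖exp (α * l z) - 1‖ ≤ 2 * α * ‖z‖ * ((1 + ‖z‖) / √(1 - ‖z‖ ^ 2)) := by
  set t := ‖z‖ with ht
  have ht0 : 0 ≤ t := norm_nonneg z
  have ht1 : t < 1 := mem_ball_zero_iff.1 hz
  set L := Real.log (1 + t) - Real.log (1 - t) with hL
  have h1 := norm_exp_sub_sum_le_exp_norm_sub_sum ((α : ℂ) * l z) 1
  simp only [Finset.range_one, Finset.sum_singleton, pow_zero, Nat.factorial_zero, Nat.cast_one,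
    div_one] at h1
  have h2 : ‖(α : ℂ) * l z‖ ≤ α * L := by
    rw [norm_mul, norm_real, Real.norm_eq_abs, abs_of_pos hα]
    exact mul_le_mul_of_nonneg_left (h.norm_l_le hz) hα.le
  have h3 : Real.exp (α * L) ≤ 2 * α * Real.exp (L / 2) + (1 - 2 * α) := by
    have := convexOn_exp.2 (mem_univ (L / 2)) (mem_univ 0) (by linarith : 0 ≤ 2 * α)
      (by linarith : 0 ≤ 1 - 2 * α) (by ring)
    simp only [smul_eq_mul, mul_zero, add_zero, Real.exp_zero, mul_one] at this
    calc Real.exp (α * L) = Real.exp (2 * α * (L / 2)) := by ring_nf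
      _ ≤ _ := this
  have hE : Real.exp (L / 2) = (1 + t) / √(1 - t ^ 2) := by
    have h4 : 0 < 1 - t ^ 2 := by nlinarith
    have h5 : Real.exp (L / 2) ^ 2 = ((1 + t) / √(1 - t ^ 2)) ^ 2 := by
      rw [← Real.exp_nat_mul, div_pow, Real.sq_sqrt h4.le]
      push_cast
      rw [mul_div_cancel₀ L (two_ne_zero), hL, Real.exp_sub, Real.exp_log (by linarith),
        Real.exp_log (by linarith)]
      have h6 : (1 - t) ≠ 0 := by linarith
      have h7 : 1 - t ^ 2 = (1 - t) * (1 + t) := by ring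
      have h8 : (1 + t) ≠ 0 := by linarith
      rw [h7]
      field_simp
    exact (pow_left_inj₀ (Real.exp_pos _).le (by positivity) two_ne_zero).1 h5
  have h9 : Real.exp (L / 2) - 1 ≤ t * Real.exp (L / 2) := by
    have h4 : 0 < 1 - t ^ 2 := by nlinarith
    have h10 : (1 - t) * Real.exp (L / 2) ≤ 1 := by
      rw [hE]
      have h11 : (1 - t) * ((1 + t) / √(1 - t ^ 2)) = √(1 - t ^ 2) := by
        have h12 : √(1 - t ^ 2) ≠ 0 := (Real.sqrt_pos.2 h4).ne'
        field_simp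
        rw [Real.sq_sqrt h4.le]
        ring
      rw [h11]
      exact Real.sqrt_le_one.2 (by nlinarith)
    linarith
  calc ‖exp (α * l z) - 1‖ ≤ Real.exp ‖(α : ℂ) * l z‖ - 1 := h1
    _ ≤ Real.exp (α * L) - 1 := by gcongr
    _ ≤ 2 * α * (Real.exp (L / 2) - 1) := by linarith
    _ ≤ 2 * α * (t * Real.exp (L / 2)) := by gcongr
    _ = _ := by rw [hE]; ring

/-- integration of a radial bound -/
lemma radial_bound {R : ℂ → ℂ} {c : ℝ} (hR : DifferentiableOn ℂ R (ball 0 1)) (hR0 : R 0 = 0)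
    (hb : ∀ z ∈ ball (0 : ℂ) 1, ‖z * deriv R z‖ ≤ c * ‖z‖ * ((1 + ‖z‖) / √(1 - ‖z‖ ^ 2)))
    (hc : 0 ≤ c) {z : ℂ} (hz : z ∈ ball (0 : ℂ) 1) : ‖R z‖ ≤ c * (Real.pi / 2 + 1) := by
  by_cases hRz : R z = 0
  · rw [hRz, norm_zero]; have := Real.pi_pos; positivity
  set ρ := ‖z‖ with hρ
  have hρ0 : 0 ≤ ρ := norm_nonneg z
  have hρ1 : ρ < 1 := mem_ball_zero_iff.1 hz
  set B : ℝ → ℝ := fun s => c * (Real.arcsin s + 1 - √(1 - s ^ 2)) with hB
  set e : ℂ := (starRingEnd ℂ) (R z) / ‖R z‖ with he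
  have hnR : (‖R z‖ : ℂ) ≠ 0 := by simpa using hRz
  have hen : ‖e‖ = 1 := by
    rw [he, norm_div, RCLike.norm_conj, norm_real, norm_norm, div_self (norm_ne_zero_iff.2 hRz)]
  set φ : ℝ → ℝ := fun t => B (t * ρ) - (R ((t : ℂ) * z) * e).re with hφ
  have hmem : ∀ t ∈ Icc (0 : ℝ) 1, (t : ℂ) * z ∈ ball (0 : ℂ) 1 := by
    intro t ht
    rw [mem_ball_zero_iff, norm_mul, norm_real, Real.norm_eq_abs, abs_of_nonneg ht.1]
    nlinarith [ht.2]
  have hBder : ∀ t ∈ Icc (0 : ℝ) 1, HasDerivAt (fun t : ℝ => B (t * ρ))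
      (c * ((1 + t * ρ) / √(1 - (t * ρ) ^ 2)) * ρ) t := by
    intro t ht
    have h0 : 0 ≤ t * ρ := mul_nonneg ht.1 hρ0
    have h1 : t * ρ < 1 := by nlinarith [ht.2]
    have h2 : 0 < 1 - (t * ρ) ^ 2 := by nlinarith
    have h3 : HasDerivAt (fun t : ℝ => t * ρ) ρ t := by simpa using (hasDerivAt_id t).mul_const ρ
    have h4 := Real.hasDerivAt_arcsin (x := t * ρ) (by linarith) (by linarith)
    have h5 : HasDerivAt (fun s : ℝ => √(1 - s ^ 2)) (-(2 * (t * ρ)) / (2 * √(1 - (t * ρ) ^ 2)))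
        (t * ρ) := by
      have := ((hasDerivAt_pow 2 (t * ρ)).const_sub 1).sqrt h2.ne'
      simpa using this
    have h6 := (((h4.add_const 1).sub h5).const_mul c).comp t h3
    refine h6.congr_deriv ?_
    have h7 : √(1 - (t * ρ) ^ 2) ≠ 0 := (Real.sqrt_pos.2 h2).ne'
    field_simp
    ring
  have hRder : ∀ t ∈ Icc (0 : ℝ) 1, HasDerivAt (fun t : ℝ => (R ((t : ℂ) * z) * e).re)
      ((deriv R ((t : ℂ) * z) * z * e).re) t := by
    intro t ht
    have h1 : HasDerivAt (fun t : ℝ => (t : ℂ) * z) z t := by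
      have := (ofRealCLM.hasDerivAt (x := t)).mul_const z
      simpa using this
    have h2 := ((hR.differentiableAt (ball_nhds (hmem t ht))).hasDerivAt).comp t h1
    have h3 := h2.mul_const e
    exact (reCLM.hasFDerivAt (x := R ((t : ℂ) * z) * e)).comp_hasDerivAt t h3
  have hmono : MonotoneOn φ (Icc 0 1) := by
    apply monotoneOn_of_deriv_nonneg (convex_Icc 0 1)
    · exact fun t ht => ((hBder t ht).sub (hRder t ht)).continuousAt.continuousWithinAt
    · intro t ht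
      rw [interior_Icc] at ht
      exact ((hBder t (Ioo_subset_Icc_self ht)).sub
        (hRder t (Ioo_subset_Icc_self ht))).differentiableAt.differentiableWithinAt
    · intro t ht
      rw [interior_Icc] at ht
      have ht' := Ioo_subset_Icc_self ht
      have hφd : HasDerivAt φ (c * ((1 + t * ρ) / √(1 - (t * ρ) ^ 2)) * ρ -
          (deriv R ((t : ℂ) * z) * z * e).re) t := (hBder t ht').sub (hRder t ht')
      rw [hφd.deriv, sub_nonneg]
      have h1 := hb _ (hmem t ht')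
      have h2 : ‖(t : ℂ) * z‖ = t * ρ := by
        rw [norm_mul, norm_real, Real.norm_eq_abs, abs_of_pos ht.1]
      rw [h2, norm_mul, h2] at h1
      have h3 : (deriv R ((t : ℂ) * z) * z * e).re ≤ ‖deriv R ((t : ℂ) * z)‖ * ρ := by
        refine (re_le_norm _).trans ?_
        rw [norm_mul, norm_mul, hen, mul_one]
      refine h3.trans ?_
      have h4 : t * (‖deriv R ((t : ℂ) * z)‖ * ρ) ≤
          t * (c * ((1 + t * ρ) / √(1 - (t * ρ) ^ 2)) * ρ) := by
        calc _ = t * ρ * ‖deriv R ((t : ℂ) * z)‖ := by ring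
          _ ≤ _ := h1
          _ = _ := by ring
      exact le_of_mul_le_mul_left h4 ht.1
  have h1 := hmono (left_mem_Icc.2 zero_le_one) (right_mem_Icc.2 zero_le_one) zero_le_one
  have h2 : φ 0 = 0 := by
    simp [hφ, hB, hR0]
  have h3 : φ 1 = B ρ - ‖R z‖ := by
    simp only [hφ]
    rw [one_mul, ofReal_one, one_mul]
    congr 1
    rw [he, mul_div_assoc', mul_conj, normSq_eq_norm_sq]
    push_cast
    rw [pow_two, mul_div_cancel_right₀ _ hnR]
    simp
  rw [h2, h3] at h1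
  have h4 : B ρ ≤ c * (Real.pi / 2 + 1) := by
    simp only [hB]
    have := Real.arcsin_le_pi_div_two ρ
    have := Real.sqrt_nonneg (1 - ρ ^ 2)
    gcongr
    linarith
  linarith

lemma Dat.P_bound (h : Dat α F l P) (hα : 0 < α) (hα1 : α ≤ 1 / 2) {z : ℂ}
    (hz : z ∈ ball (0 : ℂ) 1) : ‖P z‖ ≤ 2 * α * (Real.pi / 2 + 1) := by
  refine radial_bound h.P_diff h.P_zero (fun w hw => ?_) (by positivity) hz
  rw [h.eq w hw]
  exact h.norm_q_sub_one hα hα1 hw

lemma Dat.R_bound {F' l' P' : ℂ → ℂ} (h : Dat α F l P) (h' : Dat α F' l' P') (hα : 0 < α)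
    (hα1 : α ≤ 1 / 2) {z : ℂ} (hz : z ∈ ball (0 : ℂ) 1) :
    ‖P' z - P z‖ ≤ 4 * α * (Real.pi / 2 + 1) := by
  refine (norm_sub_le _ _).trans ?_
  have h1 := h.P_bound hα hα1 hz
  have h2 := h'.P_bound hα hα1 hz
  linarith

end bounds

end Pool.Agent.MP07129f
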