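import Mathlib

/-!
Definitions for the problem on extreme points of the class of strongly starlike functions.
-/

namespace Pool.Agent.MP07129f

open Complex Metric Set

/-- The class `S^*(α)` of strongly starlike functions of order `α`, as a subset of the space of
continuous functions on the unit disc (with the compact-open topology, that is, locally uniform
convergence). -/
def SStar (α : ℝ) : Set C(ball (0 : ℂ) 1, ℂ) :=
  {f | ∃ F : ℂ → ℂ, (∀ z : ball (0 : ℂ) 1, f z = F z) ∧ DifferentiableOn ℂ F (ball 0 1) ∧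
    InjOn F (ball 0 1) ∧ F 0 = 0 ∧ deriv F 0 = 1 ∧
    ∀ z ∈ ball (0 : ℂ) 1, z ≠ 0 → 0 < (z * deriv F z / F z).re ∧
      |arg (z * deriv F z / F z)| < α * Real.pi / 2}

/-- Analytic self maps of the disc fixing the origin. -/
def IsSchwarz (ω : ℂ → ℂ) : Prop :=
  DifferentiableOn ℂ ω (ball 0 1) ∧ ω 0 = 0 ∧ ∀ z ∈ ball (0 : ℂ) 1, ‖ω z‖ < 1

/-- `z f'(z) / f(z) = ((1 + ω z) / (1 - ω z)) ^ α` -/
def Gen (α : ℝ) (ω : ℂ → ℂ) (f : C(ball (0 : ℂ) 1, ℂ)) : Prop :=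
  ∃ F : ℂ → ℂ, (∀ z : ball (0 : ℂ) 1, f z = F z) ∧ DifferentiableOn ℂ F (ball 0 1) ∧
    deriv F 0 = 1 ∧
    ∀ z ∈ ball (0 : ℂ) 1, z * deriv F z = F z * ((1 + ω z) / (1 - ω z)) ^ (α : ℂ)

/-- radial limits of modulus one almost everywhere -/
def IsInner (ω : ℂ → ℂ) : Prop :=
  ∀ᵐ θ : ℝ, Filter.Tendsto (fun r : ℝ => ‖ω (r * exp (θ * I))‖) (nhdsWithin 1 (Iio 1)) (nhds 1)

/-- `ω` is an extreme point of the unit ball of `H^∞` -/
def BallExtreme (ω : ℂ → ℂ) : Prop :=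
  ∀ η : ℂ → ℂ, DifferentiableOn ℂ η (ball 0 1) →
    (∀ z ∈ ball (0 : ℂ) 1, ‖ω z + η z‖ ≤ 1 ∧ ‖ω z - η z‖ ≤ 1) → ∀ z ∈ ball (0 : ℂ) 1, η z = 0

end Pool.Agent.MP07129f
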