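import Pool.Agent.Lib.MP_07129f_an.Inner

/-!
Stability: finite convex combinations close to `F` consist mostly of functions close to `F`.
-/

namespace Pool.Agent.MP07129f

open Complex Metric Set Filter Topology MeasureTheory

section
variable {α : ℝ} {F l P : ℂ → ℂ}

lemma num_bound (hα1 : α ≤ 1 / 20) : 4 * α * (Real.pi / 2 + 1) ≤ 0.5143 := by
  have := Real.pi_lt_d4
  have := Real.pi_pos
  nlinarith

lemma R_small {F' l' P' : ℂ → ℂ} (h : Dat α F l P) (h' : Dat α F' l' P') (hα : 0 < α)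
    (hα1 : α ≤ 1 / 20) {z : ℂ} (hz : z ∈ ball (0 : ℂ) 1) : ‖P' z - P z‖ ≤ 0.5143 :=
  (h.R_bound h' hα (by linarith) hz).trans (num_bound hα1)

lemma P_small (h : Dat α F l P) (hα : 0 < α) (hα1 : α ≤ 1 / 20) {z : ℂ}
    (hz : z ∈ ball (0 : ℂ) 1) : ‖P z‖ ≤ 0.26 := by
  refine (h.P_bound hα (by linarith) hz).trans ?_
  have := num_bound hα1
  norm_num at this ⊢
  linarith

lemma F_norm (h : Dat α F l P) (hα : 0 < α) (hα1 : α ≤ 1 / 20) {z : ℂ}
    (hz : z ∈ ball (0 : ℂ) 1) : ‖z‖ / 2 ≤ ‖F z‖ ∧ ‖F z‖ ≤ 2 := by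
  have h1 := abs_le.1 ((abs_re_le_norm (P z)).trans (P_small h hα hα1 hz))
  rw [h.F_eq z hz, norm_mul, norm_exp]
  have h2 : (1 : ℝ) / 2 ≤ Real.exp (P z).re := by
    have := Real.add_one_le_exp (P z).re
    norm_num at h1
    linarith
  have h3 : Real.exp (P z).re ≤ 2 := by
    have := Real.exp_bound' (x := 0.26) (by norm_num) (by norm_num) (n := 3) (by norm_num)
    refine (Real.exp_le_exp.2 h1.2).trans (this.trans ?_)
    norm_num [Finset.sum_range_succ, Nat.factorial]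
  have h4 := mem_ball_zero_iff.1 hz
  have h5 := norm_nonneg z
  constructor
  · nlinarith
  · nlinarith [Real.exp_pos (P z).re]

variable {ι : Type*} [Fintype ι] {ν : ι → ℝ} {F' l' P' : ι → ℂ → ℂ}

/-- the error function -/
noncomputable def EE (α : ℝ) (l P : ℂ → ℂ) (ν : ι → ℝ) (l' P' : ι → ℂ → ℂ) (z : ℂ) : ℂ :=
  ∑ j, (ν j : ℂ) * (exp (P' j z - P z) * (qt α l (l' j) z - 1))

/-- the sum of quotients -/
noncomputable def Ph (P : ℂ → ℂ) (ν : ι → ℝ) (P' : ι → ℂ → ℂ) (z : ℂ) : ℂ :=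
  ∑ j, (ν j : ℂ) * exp (P' j z - P z)

lemma Ph_diff (h : Dat α F l P) (h' : ∀ j, Dat α (F' j) (l' j) (P' j)) :
    DifferentiableOn ℂ (Ph P ν P') (ball 0 1) := by
  unfold Ph
  refine DifferentiableOn.fun_sum fun j _ => ?_
  exact (((h' j).P_diff.sub h.P_diff).cexp).const_mul _

lemma EE_cont (h : Dat α F l P) (h' : ∀ j, Dat α (F' j) (l' j) (P' j)) :
    ContinuousOn (EE α l P ν l' P') (ball 0 1) := by
  unfold EE
  refine continuousOn_finsetSum _ fun j _ => ?_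
  have h1 := (qt_diff h (h' j)).continuousOn
  have h2 := h.P_diff.continuousOn
  have h3 := (h' j).P_diff.continuousOn
  fun_prop

lemma deriv_Ph (h : Dat α F l P) (h' : ∀ j, Dat α (F' j) (l' j) (P' j)) {z : ℂ}
    (hz : z ∈ ball (0 : ℂ) 1) :
    z * deriv (Ph P ν P') z = exp (α * l z) * EE α l P ν l' P' z := by
  have hd : ∀ j, HasDerivAt (fun z => (ν j : ℂ) * exp (P' j z - P z))
      ((ν j : ℂ) * (exp (P' j z - P z) * deriv (fun z => P' j z - P z) z)) z := by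
    intro j
    have h1 : DifferentiableAt ℂ (fun z => P' j z - P z) z :=
      (((h' j).P_diff.sub h.P_diff).differentiableAt (ball_nhds hz))
    exact (h1.hasDerivAt.cexp).const_mul _
  have hs : HasDerivAt (Ph P ν P')
      (∑ j, (ν j : ℂ) * (exp (P' j z - P z) * deriv (fun z => P' j z - P z) z)) z := by
    unfold Ph
    exact HasDerivAt.fun_sum fun j _ => hd j
  rw [hs.deriv, Finset.mul_sum]
  unfold EE
  rw [Finset.mul_sum]
  refine Finset.sum_congr rfl fun j _ => ?_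
  have := zR_eq h (h' j) hz
  linear_combination (ν j : ℂ) * exp (P' j z - P z) * this

/-- pointwise: the weighted sum of the lower bounds is at most the norm of the error -/
lemma sum_BB_le (h : Dat α F l P) (h' : ∀ j, Dat α (F' j) (l' j) (P' j)) (hα : 0 < α)
    (hα1 : α ≤ 1 / 20) (hν : ∀ j, 0 ≤ ν j) {z : ℂ} (hz : z ∈ ball (0 : ℂ) 1) :
    ∑ j, ν j * BB α l (l' j) P (P' j) z ≤ ‖EE α l P ν l' P' z‖ := by
  have h1 : ∀ j, BB α l (l' j) P (P' j) z ≤
      -sg (l z).im * (exp (P' j z - P z) * (qt α l (l' j) z - 1)).im := fun j =>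
    main_pt hα hα1 (h.im_lt z hz) ((h' j).im_lt z hz) (R_small h (h' j) hα hα1 hz)
  calc ∑ j, ν j * BB α l (l' j) P (P' j) z
      ≤ ∑ j, ν j * (-sg (l z).im * (exp (P' j z - P z) * (qt α l (l' j) z - 1)).im) :=
        Finset.sum_le_sum fun j _ => mul_le_mul_of_nonneg_left (h1 j) (hν j)
    _ = -sg (l z).im * (EE α l P ν l' P' z).im := by
        unfold EE
        rw [im_sum, Finset.mul_sum]
        refine Finset.sum_congr rfl fun j _ => ?_
        rw [im_ofReal_mul]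
        ring
    _ ≤ |-sg (l z).im * (EE α l P ν l' P' z).im| := le_abs_self _
    _ = |(EE α l P ν l' P' z).im| := by rw [abs_mul, abs_neg, abs_sg, one_mul]
    _ ≤ _ := abs_im_le_norm _

variable {r : ℝ}

lemma energy (h : Dat α F l P) (h' : ∀ j, Dat α (F' j) (l' j) (P' j)) (hα : 0 < α)
    (hα1 : α ≤ 1 / 20) (hν : ∀ j, 0 ≤ ν j) (hν1 : ∑ j, ν j = 1) (hr0 : 0 < r) (hr1 : r < 1)
    {ε : ℝ} (hε : 0 < ε) :
    0.08 * ∑ j, ν j * A r (fun z => |(qt α l (l' j) z).im|) ≤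
      A r (fun z => ‖EE α l P ν l' P' z‖) + 0.1 * (A r (fun z => et l z ^ 2) / ε + 1.06 * ε) := by
  have hBc : ∀ j, ContinuousOn (BB α l (l' j) P (P' j)) (ball 0 1) := by
    intro j
    have h1 := (qt_diff h (h' j)).continuousOn
    have h2 := h.P_diff.continuousOn
    have h3 := (h' j).P_diff.continuousOn
    have h4 := et_cont h
    unfold BB
    fun_prop
  have h1 : ∑ j, ν j * A r (BB α l (l' j) P (P' j)) ≤ A r (fun z => ‖EE α l P ν l' P' z‖) := by
    have h2 : A r (fun z => ∑ j, ν j * BB α l (l' j) P (P' j) z) =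
        ∑ j, ν j * A r (BB α l (l' j) P (P' j)) := by
      rw [A_sum hr0 hr1 (h := fun j z => ν j * BB α l (l' j) P (P' j) z)
        fun j _ => continuousOn_const.mul (hBc j)]
      refine Finset.sum_congr rfl fun j _ => A_mul _ _
    rw [← h2]
    apply A_mono hr0 hr1
    · exact continuousOn_finsetSum _ fun j _ => continuousOn_const.mul (hBc j)
    · exact (EE_cont h h').norm
    · intro z hz
      exact sum_BB_le h h' hα hα1 hν (sphere_sub hr1 hz)
  have h3 : ∀ j, ν j * (0.08 * A r (fun z => |(qt α l (l' j) z).im|)) ≤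
      ν j * (A r (BB α l (l' j) P (P' j)) +
        0.1 * (A r (fun z => et l z ^ 2) / ε + 1.06 * ε)) := fun j =>
    mul_le_mul_of_nonneg_left (core hr0 hr1 h (h' j) hα hα1 hε) (hν j)
  have h4 := Finset.sum_le_sum fun j (_ : j ∈ Finset.univ) => h3 j
  simp_rw [mul_add (ν _)] at h4
  rw [Finset.sum_add_distrib, ← Finset.sum_mul, hν1, one_mul] at h4
  have h5 : ∑ j, ν j * (0.08 * A r (fun z => |(qt α l (l' j) z).im|)) =
      0.08 * ∑ j, ν j * A r (fun z => |(qt α l (l' j) z).im|) := by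
    rw [Finset.mul_sum]
    refine Finset.sum_congr rfl fun j _ => by ring
  rw [h5] at h4
  linarith

/-- the error is small when the convex combination is close to `F` -/
lemma EE_small (h : Dat α F l P) (h' : ∀ j, Dat α (F' j) (l' j) (P' j)) (hα : 0 < α)
    (hα1 : α ≤ 1 / 20) (hr0 : 1 / 2 ≤ r) (hr1 : r < 1) {δ : ℝ}
    (hδ : ∀ ζ ∈ closedBall (0 : ℂ) ((1 + r) / 2), ‖∑ j, (ν j : ℂ) * F' j ζ - F ζ‖ ≤ δ) :
    A r (fun z => ‖EE α l P ν l' P' z‖) ≤ 32 * δ / (1 - r) ^ 2 := by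
  have hr : 0 < 1 - r := by linarith
  have hδ0 : 0 ≤ δ := (norm_nonneg _).trans (hδ 0 (mem_closedBall_self (by linarith)))
  have hPh1 : ∀ ζ : ℂ, r / 2 ≤ ‖ζ‖ → ‖ζ‖ ≤ (1 + r) / 2 → ‖Ph P ν P' ζ - 1‖ ≤ 8 * δ := by
    intro ζ h1 h2
    have hζ : ζ ∈ ball (0 : ℂ) 1 := by rw [mem_ball_zero_iff]; linarith
    have hζ0 : ζ ≠ 0 := by
      intro h0; rw [h0, norm_zero] at h1; linarith
    have e : ∑ j, (ν j : ℂ) * F' j ζ - F ζ = F ζ * (Ph P ν P' ζ - 1) := by
      rw [mul_sub, mul_one]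
      unfold Ph
      rw [Finset.mul_sum]
      congr 1
      refine Finset.sum_congr rfl fun j _ => ?_
      rw [(h' j).F_eq ζ hζ, h.F_eq ζ hζ, exp_sub]
      have := exp_ne_zero (P ζ)
      field_simp
    have h3 := hδ ζ (mem_closedBall_zero_iff.2 h2)
    rw [e, norm_mul] at h3
    have h4 := (F_norm h hα hα1 hζ).1
    have h5 : (1 : ℝ) / 8 ≤ ‖F ζ‖ := by linarith
    have h6 : 1 / 8 * ‖Ph P ν P' ζ - 1‖ ≤ ‖F ζ‖ * ‖Ph P ν P' ζ - 1‖ := by gcongr
    linarith
  have hpt : ∀ z ∈ sphere (0 : ℂ) r, ‖EE α l P ν l' P' z‖ ≤ 32 * δ / (1 - r) ^ 2 := by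
    intro z hz
    have hzn : ‖z‖ = r := mem_sphere_zero_iff_norm.1 hz
    have hz' : z ∈ ball (0 : ℂ) 1 := by rw [mem_ball_zero_iff, hzn]; exact hr1
    -- Cauchy estimate
    have h1 : ‖deriv (fun ζ => Ph P ν P' ζ - 1) z‖ ≤ 8 * δ / ((1 - r) / 2) := by
      have hsub : closedBall z ((1 - r) / 2) ⊆ ball (0 : ℂ) 1 := by
        intro ζ hζ
        rw [mem_closedBall, dist_eq_norm] at hζ
        rw [mem_ball_zero_iff]
        have := norm_add_le (ζ - z) z
        rw [sub_add_cancel, hzn] at this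
        linarith
      apply norm_deriv_le_of_forall_mem_sphere_norm_le (by linarith)
      · apply DifferentiableOn.diffContOnCl
        rw [closure_ball _ (by linarith)]
        exact ((Ph_diff h h').sub_const 1).mono hsub
      · intro ζ hζ
        rw [mem_sphere, dist_eq_norm] at hζ
        apply hPh1
        · have := norm_sub_norm_le z (z - ζ)
          rw [sub_sub_cancel, norm_sub_rev, hζ, hzn] at this
          linarith
        · have := norm_add_le (ζ - z) z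
          rw [sub_add_cancel, hzn, hζ] at this
          linarith
    rw [deriv_sub_const] at h1
    have h2 := deriv_Ph (ν := ν) h h' hz'
    have h3 : ‖exp (α * l z)‖ * ‖EE α l P ν l' P' z‖ ≤ 8 * δ / ((1 - r) / 2) := by
      rw [← norm_mul, ← h2, norm_mul, hzn]
      have := norm_nonneg (deriv (Ph P ν P') z)
      nlinarith
    have h4 : (1 - r) / 2 ≤ ‖exp (α * l z)‖ := by
      rw [norm_exp]
      have h5 := h.norm_l_le hz'
      rw [hzn] at h5
      have h6 : -(Real.log (1 + r) - Real.log (1 - r)) ≤ ((α : ℂ) * l z).re := by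
        have h7 : |((α : ℂ) * l z).re| ≤ α * ‖l z‖ := by
          refine (abs_re_le_norm _).trans ?_
          rw [norm_mul, norm_real, Real.norm_eq_abs, abs_of_pos hα]
        have h8 := (abs_le.1 h7).1
        have h9 := norm_nonneg (l z)
        nlinarith
      calc (1 - r) / 2 ≤ (1 - r) / (1 + r) := by
            apply div_le_div_of_nonneg_left hr.le (by linarith) (by linarith)
        _ = Real.exp (-(Real.log (1 + r) - Real.log (1 - r))) := by
            rw [neg_sub, Real.exp_sub, Real.exp_log hr, Real.exp_log (by linarith)]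
        _ ≤ _ := Real.exp_le_exp.2 h6
    have h5 := norm_nonneg (EE α l P ν l' P' z)
    have h6 : (1 - r) / 2 * ‖EE α l P ν l' P' z‖ ≤ 8 * δ / ((1 - r) / 2) :=
      (mul_le_mul_of_nonneg_right h4 h5).trans h3
    rw [le_div_iff₀ (by positivity)] at h6 ⊢
    nlinarith
  have h7 := A_mono (r := r) (by linarith) hr1 (EE_cont (ν := ν) h h').norm
    (continuousOn_const (c := 32 * δ / (1 - r) ^ 2)) hpt
  rwa [A_const] at h7

/-- stability -/
theorem stability (h : Dat α F l P) (hα : 0 < α) (hα1 : α ≤ 1 / 20)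
    (hE : ∀ τ > 0, ∀ᶠ r in 𝓝[<] (1 : ℝ), A r (fun z => et l z ^ 2) ≤ τ) {z₀ : ℂ}
    (hz₀ : z₀ ∈ ball (0 : ℂ) 1) {ε : ℝ} (hε : 0 < ε) :
    ∃ ρ < 1, ∃ δ > 0, ∀ (ι : Type) [Fintype ι] (ν : ι → ℝ) (F' l' P' : ι → ℂ → ℂ),
      (∀ j, Dat α (F' j) (l' j) (P' j)) → (∀ j, 0 ≤ ν j) → ∑ j, ν j = 1 →
      (∀ ζ ∈ closedBall (0 : ℂ) ρ, ‖∑ j, (ν j : ℂ) * F' j ζ - F ζ‖ ≤ δ) →
      ∑ j, ν j * ‖F' j z₀ - F z₀‖ ≤ ε := by
  have hz1 := mem_ball_zero_iff.1 hz₀
  have hz0 := norm_nonneg z₀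
  set K0 : ℝ := 2 / (1 - ‖z₀‖) with hK0
  have hK0pos : 0 < K0 := div_pos two_pos (by linarith)
  set τ : ℝ := ε / (4 * K0) with hτ
  have hτ0 : 0 < τ := by positivity
  set ε1 : ℝ := 0.2 * τ ^ 2 with hε1
  have hε1pos : 0 < ε1 := by positivity
  have h1 := hE (0.04 * τ ^ 4) (by positivity)
  have h2 : Ioo (max (1 / 2) ((1 + ‖z₀‖) / 2)) 1 ∈ 𝓝[<] (1 : ℝ) :=
    Ioo_mem_nhdsLT (max_lt (by norm_num) (by linarith))
  obtain ⟨r, hr, hr'⟩ := (h1.and h2).exists
  have hrhalf : 1 / 2 ≤ r := (le_max_left _ _).trans hr'.1.le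
  have hrz : (1 + ‖z₀‖) / 2 ≤ r := (le_max_right _ _).trans hr'.1.le
  have hr1 : r < 1 := hr'.2
  have hr0 : 0 < r := by linarith
  have hr1' : 0 < 1 - r := by linarith
  refine ⟨(1 + r) / 2, by linarith, 0.0009 * (1 - r) ^ 2 * τ ^ 2, by positivity, ?_⟩
  intro ι _ ν F' l' P' h' hν hν1 hclose
  have h3 := EE_small h h' hα hα1 hrhalf hr1 hclose
  have h4 : 32 * (0.0009 * (1 - r) ^ 2 * τ ^ 2) / (1 - r) ^ 2 = 0.0288 * τ ^ 2 := by
    field_simp
    norm_num
  rw [h4] at h3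
  have h5 := energy h h' hα hα1 hν hν1 hr0 hr1 hε1pos
  have h6 : A r (fun z => et l z ^ 2) / ε1 ≤ 0.2 * τ ^ 2 := by
    rw [div_le_iff₀ hε1pos, hε1]
    refine hr.trans (le_of_eq ?_)
    ring
  have hM : ∑ j, ν j * A r (fun z => |(qt α l (l' j) z).im|) ≤ τ ^ 2 := by
    rw [hε1] at h5 h6
    norm_num at h3 h5 h6 ⊢
    nlinarith
  have h7 : ∀ j, ‖F' j z₀ - F z₀‖ ≤ 2 * K0 * (τ + A r (fun z => |(qt α l (l' j) z).im|) / τ) := by
    intro j
    have hd : DifferentiableOn ℂ (fun z => P' j z - P z) (ball 0 1) := (h' j).P_diff.sub h.P_diff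
    have hc := hd.continuousOn
    have h8 := norm_le_A hr0 hr1 hd (w := z₀) (by linarith)
    have h9 : r / (r - ‖z₀‖) ≤ K0 := by
      rw [hK0, div_le_div_iff₀ (by linarith) (by linarith)]
      nlinarith
    have h10 : A r (fun z => ‖P' j z - P z‖) ≤
        1 / 2 * (τ + A r (fun z => |(qt α l (l' j) z).im|) / τ) := by
      have h11 : A r (fun z => ‖P' j z - P z‖) ≤
          A r (fun z => τ / 2 + (1 / (2 * τ)) * ‖P' j z - P z‖ ^ 2) := by
        apply A_mono hr0 hr1 (by fun_prop) (by fun_prop)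
        intro z _
        have e : τ / 2 + (1 / (2 * τ)) * ‖P' j z - P z‖ ^ 2 - ‖P' j z - P z‖ =
            (1 / (2 * τ)) * (‖P' j z - P z‖ - τ) ^ 2 := by
          field_simp
          ring
        have : 0 ≤ (1 / (2 * τ)) * (‖P' j z - P z‖ - τ) ^ 2 := by positivity
        linarith
      rw [A_add hr0 hr1 (by fun_prop) (by fun_prop), A_const, A_mul] at h11
      have h12 := A_R_le hr0 hr1 h (h' j) hα hα1
      have h13 : (1 / (2 * τ)) * A r (fun z => ‖P' j z - P z‖ ^ 2) ≤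
          (1 / (2 * τ)) * A r (fun z => |(qt α l (l' j) z).im|) := by gcongr
      have e2 : 1 / 2 * (τ + A r (fun z => |(qt α l (l' j) z).im|) / τ) =
          τ / 2 + (1 / (2 * τ)) * A r (fun z => |(qt α l (l' j) z).im|) := by
        field_simp
      rw [e2]
      linarith
    have hAn : 0 ≤ A r (fun z => ‖P' j z - P z‖) := A_nonneg hr0 fun z _ => norm_nonneg _
    have h14 : ‖P' j z₀ - P z₀‖ ≤ K0 * (1 / 2 * (τ + A r (fun z => |(qt α l (l' j) z).im|) / τ)) :=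
      h8.trans (mul_le_mul h9 h10 hAn hK0pos.le)
    have h15 : ‖exp (P' j z₀ - P z₀) - 1‖ ≤ 2 * ‖P' j z₀ - P z₀‖ :=
      norm_exp_sub_one_le ((R_small h (h' j) hα hα1 hz₀).trans (by norm_num))
    have e3 : F' j z₀ - F z₀ = F z₀ * (exp (P' j z₀ - P z₀) - 1) := by
      rw [(h' j).F_eq z₀ hz₀, h.F_eq z₀ hz₀, exp_sub]
      have := exp_ne_zero (P z₀)
      field_simp
    rw [e3, norm_mul]
    have h16 := (F_norm h hα hα1 hz₀).2
    calc ‖F z₀‖ * ‖exp (P' j z₀ - P z₀) - 1‖ ≤ 2 * (2 * ‖P' j z₀ - P z₀‖) := by gcongr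
      _ ≤ 2 * (2 * (K0 * (1 / 2 * (τ + A r (fun z => |(qt α l (l' j) z).im|) / τ)))) := by gcongr
      _ = _ := by ring
  calc ∑ j, ν j * ‖F' j z₀ - F z₀‖
      ≤ ∑ j, ν j * (2 * K0 * (τ + A r (fun z => |(qt α l (l' j) z).im|) / τ)) :=
        Finset.sum_le_sum fun j _ => mul_le_mul_of_nonneg_left (h7 j) (hν j)
    _ = 2 * K0 * (τ * ∑ j, ν j + (∑ j, ν j * A r (fun z => |(qt α l (l' j) z).im|)) / τ) := by
        rw [Finset.mul_sum, Finset.sum_div, ← Finset.sum_add_distrib, Finset.mul_sum]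
        refine Finset.sum_congr rfl fun j _ => by ring
    _ ≤ 2 * K0 * (τ * 1 + τ ^ 2 / τ) := by
        rw [hν1]
        gcongr
    _ = ε := by
        rw [hτ]
        field_simp
        norm_num

end

end Pool.Agent.MP07129f
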