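import Pool.Agent.Lib.MP_07129f_an.Core

/-!
For an inner Schwarz function the angular distance to the boundary of the strip has small mean
on circles close to the unit circle.
-/

namespace Pool.Agent.MP07129f

open Complex Metric Set Filter Topology MeasureTheory

section
variable {α : ℝ} {F l P ω : ℂ → ℂ}

lemma one_sub_ne {w : ℂ} (h : ‖w‖ < 1) : 1 - w ≠ 0 := by
  intro h0
  rw [← sub_eq_zero.1 h0] at h
  simp at h

lemma one_add_ne {w : ℂ} (h : ‖w‖ < 1) : 1 + w ≠ 0 := by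
  intro h0
  have : w = -1 := by linear_combination h0
  rw [this] at h
  simp at h

/-- the cosine of the argument of the Cayley transform -/
lemma cos_im {L w : ℂ} (hw : ‖w‖ < 1) (hL : exp L = (1 + w) / (1 - w)) :
    Real.cos L.im * ‖1 - w ^ 2‖ = 1 - ‖w‖ ^ 2 := by
  have h1 := one_sub_ne hw
  have hre : (exp L).re * ‖1 - w‖ ^ 2 = 1 - ‖w‖ ^ 2 := by
    have e : (1 + w) / (1 - w) = (1 + w) * (starRingEnd ℂ) (1 - w) * ((‖1 - w‖ ^ 2 : ℝ) : ℂ)⁻¹ := by
      have h2 : ((‖1 - w‖ ^ 2 : ℝ) : ℂ) = (1 - w) * (starRingEnd ℂ) (1 - w) := by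
        rw [mul_conj, normSq_eq_norm_sq]
      have h3 : (starRingEnd ℂ) (1 - w) ≠ 0 := by
        rw [Ne, map_eq_zero]; exact h1
      rw [h2]
      field_simp
    rw [hL, e, ← ofReal_inv, re_mul_ofReal]
    have h4 : ‖1 - w‖ ^ 2 ≠ 0 := pow_ne_zero _ (norm_ne_zero_iff.2 h1)
    rw [mul_assoc, inv_mul_cancel₀ h4, mul_one, ← normSq_eq_norm_sq, normSq_apply]
    simp
    ring
  have hn : ‖exp L‖ * ‖1 - w‖ = ‖1 + w‖ := by
    rw [hL, norm_div, div_mul_cancel₀ _ (norm_ne_zero_iff.2 h1)]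
  have h5 : ‖1 - w ^ 2‖ = ‖1 - w‖ * ‖1 + w‖ := by
    rw [← norm_mul]; congr 1; ring
  rw [h5, ← hn]
  rw [exp_re] at hre
  rw [norm_exp]
  linarith

lemma et_le {L w : ℂ} (hw : ‖w‖ < 1) (hL : exp L = (1 + w) / (1 - w))
    (him : |L.im| < Real.pi / 2) :
    (Real.pi / 2 - |L.im|) * ‖1 - w ^ 2‖ ≤ Real.pi / 2 * (1 - ‖w‖ ^ 2) := by
  have h1 := cos_im hw hL
  have h2 := Real.mul_le_sin (x := Real.pi / 2 - |L.im|) (by linarith)
    (by have := abs_nonneg L.im; linarith)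
  rw [Real.sin_pi_div_two_sub, Real.cos_abs] at h2
  have hpi := Real.pi_pos
  have h3 : Real.pi / 2 - |L.im| ≤ Real.pi / 2 * Real.cos L.im := by
    calc Real.pi / 2 - |L.im| = Real.pi / 2 * (2 / Real.pi * (Real.pi / 2 - |L.im|)) := by
          field_simp
      _ ≤ _ := by gcongr
  calc (Real.pi / 2 - |L.im|) * ‖1 - w ^ 2‖ ≤ Real.pi / 2 * Real.cos L.im * ‖1 - w ^ 2‖ := by
        gcongr
    _ = _ := by rw [← h1]; ring

/-- pointwise bound by functions with computable means -/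
lemma et_le' {L w : ℂ} (hw : ‖w‖ < 1) (hL : exp L = (1 + w) / (1 - w))
    (him : |L.im| < Real.pi / 2) {ε : ℝ} (hε : 0 < ε) (hε1 : ε < 1) :
    Real.pi / 2 - |L.im| ≤ Real.pi / 2 * ((1 - ‖w‖ ^ 2) / ε +
      (Real.log 2 - Real.log ‖1 - w ^ 2‖) / Real.log (2 / ε)) := by
  have h1 := et_le hw hL him
  have hpi := Real.pi_pos
  have hw2 : 0 ≤ 1 - ‖w‖ ^ 2 := by nlinarith [norm_nonneg w]
  have hlog2 : 0 < Real.log (2 / ε) := by
    apply Real.log_pos
    rw [lt_div_iff₀ hε]; linarith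
  have hw' : ‖w ^ 2‖ < 1 := by rw [norm_pow]; nlinarith [norm_nonneg w]
  have hne := one_sub_ne hw'
  have hpos : 0 < ‖1 - w ^ 2‖ := norm_pos_iff.2 hne
  have hle2 : ‖1 - w ^ 2‖ ≤ 2 := by
    refine (norm_sub_le _ _).trans ?_
    rw [norm_one]; linarith
  have hterm : 0 ≤ (Real.log 2 - Real.log ‖1 - w ^ 2‖) / Real.log (2 / ε) := by
    apply div_nonneg _ hlog2.le
    exact sub_nonneg.2 (Real.log_le_log hpos hle2)
  by_cases hs : ε ≤ ‖1 - w ^ 2‖
  · have h2 : Real.pi / 2 - |L.im| ≤ Real.pi / 2 * ((1 - ‖w‖ ^ 2) / ε) := by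
      have h3 : (Real.pi / 2 - |L.im|) * ε ≤ Real.pi / 2 * (1 - ‖w‖ ^ 2) := by
        refine le_trans ?_ h1
        gcongr
      rw [← mul_div_assoc, le_div_iff₀ hε]
      exact h3
    refine h2.trans ?_
    gcongr
    linarith
  · push Not at hs
    have h2 : 1 ≤ (Real.log 2 - Real.log ‖1 - w ^ 2‖) / Real.log (2 / ε) := by
      rw [le_div_iff₀ hlog2, one_mul, Real.log_div two_ne_zero hε.ne']
      have := Real.log_le_log hpos hs.le
      linarith
    have h3 : 0 ≤ (1 - ‖w‖ ^ 2) / ε := by positivity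
    have h4 := abs_nonneg L.im
    calc Real.pi / 2 - |L.im| ≤ Real.pi / 2 * 1 := by linarith
      _ ≤ _ := by gcongr; linarith

lemma tendsto_A_one_sub (hω : DifferentiableOn ℂ ω (ball 0 1))
    (hω1 : ∀ z ∈ ball (0 : ℂ) 1, ‖ω z‖ < 1)
    (hin : ∀ᵐ θ : ℝ, Tendsto (fun r : ℝ => ‖ω (r * exp (θ * I))‖) (𝓝[<] 1) (𝓝 1)) :
    Tendsto (fun r => A r (fun z => 1 - ‖ω z‖ ^ 2)) (𝓝[<] 1) (𝓝 0) := by
  have h2pi := Real.two_pi_pos
  have hIoo : Ioo (0 : ℝ) 1 ∈ 𝓝[<] (1 : ℝ) := Ioo_mem_nhdsLT (by norm_num)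
  have hmem : ∀ r ∈ Ioo (0 : ℝ) 1, ∀ θ : ℝ, circleMap 0 r θ ∈ ball (0 : ℂ) 1 := fun r hr θ =>
    sphere_sub hr.2 (circleMap_mem_sphere 0 hr.1.le θ)
  have h1 : Tendsto (fun r : ℝ => ∫ θ in (0 : ℝ)..2 * Real.pi, (1 - ‖ω (circleMap 0 r θ)‖ ^ 2))
      (𝓝[<] 1) (𝓝 (∫ _θ in (0 : ℝ)..2 * Real.pi, (0 : ℝ))) := by
    apply intervalIntegral.tendsto_integral_filter_of_dominated_convergence (fun _ => (1 : ℝ))
    · filter_upwards [hIoo] with r hr
      have hc : Continuous fun θ => ω (circleMap 0 r θ) :=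
        hω.continuousOn.comp_continuous (continuous_circleMap 0 r) (hmem r hr)
      have : Continuous fun θ => (1 - ‖ω (circleMap 0 r θ)‖ ^ 2 : ℝ) :=
        continuous_const.sub (hc.norm.pow 2)
      exact this.aestronglyMeasurable
    · filter_upwards [hIoo] with r hr
      refine Eventually.of_forall fun θ _ => ?_
      have h2 := hω1 _ (hmem r hr θ)
      have h3 := norm_nonneg (ω (circleMap 0 r θ))
      rw [Real.norm_eq_abs, abs_le]
      constructor <;> nlinarith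
    · exact intervalIntegrable_const
    · filter_upwards [hin] with θ hθ _
      have h2 : ∀ r : ℝ, circleMap 0 r θ = r * exp (θ * I) := fun r => circleMap_zero r θ
      simp_rw [h2]
      have h3 := (hθ.pow 2).const_sub 1
      simpa using h3
  rw [intervalIntegral.integral_zero] at h1
  have h4 := h1.const_mul (2 * Real.pi)⁻¹
  rw [mul_zero] at h4
  refine h4.congr fun r => ?_
  rw [A, Real.circleAverage_def, smul_eq_mul]

lemma A_et (h : Dat α F l P) (hω : DifferentiableOn ℂ ω (ball 0 1)) (hω0 : ω 0 = 0)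
    (hω1 : ∀ z ∈ ball (0 : ℂ) 1, ‖ω z‖ < 1)
    (hl : ∀ z ∈ ball (0 : ℂ) 1, exp (l z) = (1 + ω z) / (1 - ω z))
    {r : ℝ} (hr0 : 0 < r) (hr1 : r < 1) {ε : ℝ} (hε : 0 < ε) (hε1 : ε < 1) :
    A r (fun z => et l z ^ 2) ≤ (Real.pi / 2) ^ 2 * (A r (fun z => 1 - ‖ω z‖ ^ 2) / ε +
      Real.log 2 / Real.log (2 / ε)) := by
  have hpi := Real.pi_pos
  have hec := et_cont h
  have hωc := hω.continuousOn
  have hω2 : ∀ z ∈ ball (0 : ℂ) 1, ‖ω z ^ 2‖ < 1 := by
    intro z hz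
    have := hω1 z hz
    rw [norm_pow]; nlinarith [norm_nonneg (ω z)]
  have hslit : ∀ z ∈ ball (0 : ℂ) 1, 1 - ω z ^ 2 ∈ slitPlane := by
    intro z hz
    left
    rw [sub_re, one_re]
    have := (re_le_norm (ω z ^ 2)).trans_lt (hω2 z hz)
    linarith
  have hlogd : DifferentiableOn ℂ (fun z => log (1 - ω z ^ 2)) (ball 0 1) :=
    ((hω.pow 2).const_sub 1).clog hslit
  have hlogc : ContinuousOn (fun z => Real.log ‖1 - ω z ^ 2‖) (ball 0 1) := by
    have h1 : ContinuousOn (fun z => (log (1 - ω z ^ 2)).re) (ball 0 1) :=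
      continuous_re.comp_continuousOn hlogd.continuousOn
    exact h1.congr fun z _ => (log_re _).symm
  have hAlog : A r (fun z => Real.log ‖1 - ω z ^ 2‖) = 0 := by
    have h1 := A_re hr0 hr1 hlogd
    have h2 : A r (fun z => (log (1 - ω z ^ 2)).re) = A r (fun z => Real.log ‖1 - ω z ^ 2‖) :=
      A_congr hr0 fun z _ => log_re _
    rw [← h2, h1, hω0]
    simp
  set k : ℝ := Real.log (2 / ε) with hk
  have h1 : A r (fun z => et l z ^ 2) ≤ A r (fun z => (Real.pi / 2) ^ 2 * ((1 / ε) *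
      (1 - ‖ω z‖ ^ 2) + ((1 / k) * Real.log 2 - (1 / k) * Real.log ‖1 - ω z ^ 2‖))) := by
    apply A_mono hr0 hr1 (by fun_prop) (by fun_prop)
    intro z hz
    have hz' := sphere_sub hr1 hz
    have h2 := et_le' (hω1 z hz') (hl z hz') (h.im_lt z hz') hε hε1
    have h3 := h.im_lt z hz'
    have h4 := abs_nonneg (l z).im
    change et l z ≤ _ at h2
    have h5 : 0 ≤ et l z := by unfold et; linarith
    have h6 : et l z ≤ Real.pi / 2 := by unfold et; linarith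
    calc et l z ^ 2 = et l z * et l z := pow_two _
      _ ≤ Real.pi / 2 * (Real.pi / 2 * ((1 - ‖ω z‖ ^ 2) / ε +
          (Real.log 2 - Real.log ‖1 - ω z ^ 2‖) / Real.log (2 / ε))) := by gcongr
      _ = _ := by rw [← hk]; ring
  refine h1.trans (le_of_eq ?_)
  have e2 : A r (fun z => (1 / k) * Real.log 2 - (1 / k) * Real.log ‖1 - ω z ^ 2‖) =
      (1 / k) * Real.log 2 := by
    rw [A_sub hr0 hr1 (by fun_prop) (by fun_prop), A_const, A_mul, hAlog]
    ring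
  rw [A_mul, A_add hr0 hr1 (by fun_prop) (by fun_prop), A_mul, e2]
  ring

/-- the mean of the squared angular distance tends to zero -/
lemma exists_radius (h : Dat α F l P) (hω : DifferentiableOn ℂ ω (ball 0 1)) (hω0 : ω 0 = 0)
    (hω1 : ∀ z ∈ ball (0 : ℂ) 1, ‖ω z‖ < 1)
    (hl : ∀ z ∈ ball (0 : ℂ) 1, exp (l z) = (1 + ω z) / (1 - ω z))
    (hin : ∀ᵐ θ : ℝ, Tendsto (fun r : ℝ => ‖ω (r * exp (θ * I))‖) (𝓝[<] 1) (𝓝 1))
    {τ : ℝ} (hτ : 0 < τ) :
    ∀ᶠ r in 𝓝[<] (1 : ℝ), A r (fun z => et l z ^ 2) ≤ τ := by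
  have hpi := Real.pi_pos
  -- choose ε
  have h1 : Tendsto (fun ε : ℝ => (Real.pi / 2) ^ 2 * (Real.log 2 / Real.log (2 / ε))) (𝓝[>] 0)
      (𝓝 ((Real.pi / 2) ^ 2 * 0)) := by
    apply Tendsto.const_mul
    apply Tendsto.div_atTop tendsto_const_nhds
    apply Real.tendsto_log_atTop.comp
    exact Tendsto.const_mul_atTop two_pos tendsto_inv_nhdsGT_zero
  rw [mul_zero] at h1
  have h2 := h1.eventually (gt_mem_nhds (half_pos hτ))
  have h3 : Ioo (0 : ℝ) 1 ∈ 𝓝[>] (0 : ℝ) := Ioo_mem_nhdsGT (by norm_num)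
  obtain ⟨ε, hε1, hε2⟩ := (h2.and h3).exists
  have h4 := (tendsto_A_one_sub hω hω1 hin).div_const ε |>.const_mul ((Real.pi / 2) ^ 2)
  rw [zero_div, mul_zero] at h4
  have h5 := h4.eventually (gt_mem_nhds (half_pos hτ))
  have hIoo : Ioo (0 : ℝ) 1 ∈ 𝓝[<] (1 : ℝ) := Ioo_mem_nhdsLT (by norm_num)
  filter_upwards [h5, hIoo] with r hr hr'
  have h6 := A_et h hω hω0 hω1 hl hr'.1 hr'.2 hε2.1 hε2.2
  rw [mul_add] at h6
  linarith

end

end Pool.Agent.MP07129f
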