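import Pool.Agent.Lib.MP_07129f_an.Top

/-!
Necessary condition for extreme points, and the parametrisation of the class by Schwarz functions.
-/

namespace Pool.Agent.MP07129f

open Complex Metric Set Filter Topology MeasureTheory

/-- a function with data gives a member of the class -/
lemma exists_mem_of_dat {α : ℝ} (hα : 0 < α) (hα1 : α < 1) {F l P : ℂ → ℂ} (h : Dat α F l P) :
    ∃ f : C(ball (0 : ℂ) 1, ℂ), f ∈ SStar α ∧ ∀ z : ball (0 : ℂ) 1, f z = F z := by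
  have hp := h.props hα hα1.le
  refine ⟨⟨fun z => F z, hp.1.continuousOn.domRestrict⟩, ?_, fun z => rfl⟩
  exact ⟨F, fun z => rfl, hp⟩

lemma cos_le {x : ℝ} (h : |x| < Real.pi / 2) : Real.cos x ≤ Real.pi / 2 - |x| := by
  rw [← Real.cos_abs, ← Real.sin_pi_div_two_sub]
  exact Real.sin_le (by linarith)

lemma re_cayley_pos {w : ℂ} (hw : ‖w‖ < 1) : 0 < ((1 + w) / (1 - w)).re := by
  have hne := one_sub_ne hw
  have e : (1 + w) / (1 - w) = (1 + w) * (starRingEnd ℂ) (1 - w) * ((‖1 - w‖ ^ 2 : ℝ) : ℂ)⁻¹ := by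
    have h2 : ((‖1 - w‖ ^ 2 : ℝ) : ℂ) = (1 - w) * (starRingEnd ℂ) (1 - w) := by
      rw [mul_conj, normSq_eq_norm_sq]
    have h3 : (starRingEnd ℂ) (1 - w) ≠ 0 := by
      rw [Ne, map_eq_zero]; exact hne
    rw [h2]
    field_simp
  rw [e, ← ofReal_inv, re_mul_ofReal]
  apply mul_pos
  · have h4 : ((1 + w) * (starRingEnd ℂ) (1 - w)).re = 1 - ‖w‖ ^ 2 := by
      rw [← normSq_eq_norm_sq, normSq_apply]
      simp
      ring
    rw [h4]
    nlinarith [norm_nonneg w]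
  · have := norm_pos_iff.2 hne
    positivity

/-- every Schwarz function generates a member of the class -/
theorem exists_gen {α : ℝ} (hα : 0 < α) (hα1 : α < 1) {ω : ℂ → ℂ} (hω : IsSchwarz ω) :
    ∃ f ∈ SStar α, Gen α ω f := by
  obtain ⟨hωd, hω0, hω1⟩ := hω
  set y : ℂ → ℂ := fun z => (1 + ω z) / (1 - ω z) with hy
  have hyd : DifferentiableOn ℂ y (ball 0 1) :=
    (hωd.const_add 1).div (hωd.const_sub 1) fun z hz => one_sub_ne (hω1 z hz)
  have hyre : ∀ z ∈ ball (0 : ℂ) 1, 0 < (y z).re := fun z hz => re_cayley_pos (hω1 z hz)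
  set l : ℂ → ℂ := fun z => log (y z) with hl
  have hld : DifferentiableOn ℂ l (ball 0 1) := hyd.clog fun z hz => Or.inl (hyre z hz)
  have hl0 : l 0 = 0 := by simp [hl, hy, hω0]
  set q : ℂ → ℂ := fun z => exp (α * l z) with hq
  have hqd : DifferentiableOn ℂ q (ball 0 1) := (hld.const_mul (α : ℂ)).cexp
  have hq0 : q 0 = 1 := by simp [hq, hl0]
  have hds : DifferentiableOn ℂ (dslope q 0) (ball 0 1) :=
    (differentiableOn_dslope (ball_nhds zero_mem_D)).2 hqd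
  obtain ⟨P, hP1, hP2, hP3⟩ := exists_primitive hds
  have hd : Dat α (fun z => z * exp (P z)) l P := by
    refine ⟨hld, hP1, hl0, hP2, fun z hz => ?_, fun z hz => ?_, fun z _ => rfl⟩
    · simp only [hl]
      rw [log_im]
      exact abs_arg_lt_pi_div_two_iff.2 (Or.inl (hyre z hz))
    · rw [(hP3 z hz).deriv]
      have := sub_smul_dslope q 0 z
      rw [sub_zero, hq0, smul_eq_mul] at this
      exact this
  obtain ⟨f, hf, hfF⟩ := exists_mem_of_dat hα hα1 hd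
  refine ⟨f, hf, fun z => z * exp (P z), hfF, (hd.props hα hα1.le).1,
    (hd.props hα hα1.le).2.2.2.1, fun z hz => ?_⟩
  rw [(hd.hasDerivAt_F hz).deriv]
  have hy0 : y z ≠ 0 := by
    intro h0
    have := hyre z hz
    rw [h0] at this
    simp at this
  rw [cpow_def_of_ne_zero (x := (1 + ω z) / (1 - ω z)) hy0]
  have : log ((1 + ω z) / (1 - ω z)) * (α : ℂ) = α * l z := by
    simp only [hl, hy]; ring
  rw [this]
  ring

/-- every member of the class is generated by a Schwarz function -/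
theorem exists_schwarz {α : ℝ} (hα : 0 < α) {f : C(ball (0 : ℂ) 1, ℂ)}
    (hf : f ∈ SStar α) : ∃ ω, IsSchwarz ω ∧ Gen α ω f := by
  obtain ⟨F, hfF, hF, hinj, hF0, hF1, hq⟩ := hf
  obtain ⟨l, P, h⟩ := exists_dat hα hF hinj hF0 hF1 hq
  have hre : ∀ z ∈ ball (0 : ℂ) 1, 0 < (exp (l z)).re := fun z hz => re_exp_pos (h.im_lt z hz)
  have hne : ∀ z ∈ ball (0 : ℂ) 1, exp (l z) + 1 ≠ 0 := by
    intro z hz h0
    have := congrArg Complex.re h0
    rw [add_re, one_re, zero_re] at this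
    linarith [hre z hz]
  have hlt : ∀ z ∈ ball (0 : ℂ) 1, ‖sch l z‖ < 1 := fun z hz => norm_cayley_lt (hre z hz)
  refine ⟨sch l, ⟨(h.l_diff.cexp.sub_const 1).div (h.l_diff.cexp.add_const 1) hne, by
    simp [sch, h.l_zero], hlt⟩, F, hfF, hF, hF1, fun z hz => ?_⟩
  have h1 : (1 + sch l z) / (1 - sch l z) = exp (l z) := by
    rw [div_eq_iff (one_sub_ne (hlt z hz))]
    have := hne z hz
    unfold sch
    field_simp
    ring
  rw [h1, cpow_def_of_ne_zero (exp_ne_zero _)]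
  have him := abs_lt.1 (h.im_lt z hz)
  have hpi := Real.pi_pos
  rw [log_exp (by linarith) (by linarith), (h.hasDerivAt_F hz).deriv, h.F_eq z hz,
    mul_comm (l z) (α : ℂ)]
  ring

/-- the perturbed data -/
lemma perturb {α : ℝ} (hα : 0 < α) (hα1 : α < 1) {F l P H h1 : ℂ → ℂ} (h : Dat α F l P)
    (hH : DifferentiableOn ℂ H (ball 0 1)) (hH0 : H 0 = 0)
    (hHd : ∀ z ∈ ball (0 : ℂ) 1, z * deriv H z = exp (α * l z) * h1 z)
    (hh1 : DifferentiableOn ℂ h1 (ball 0 1))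
    (hHb : ∀ z ∈ ball (0 : ℂ) 1, ‖H z‖ ≤ 1 / 8)
    (hh1b : ∀ z ∈ ball (0 : ℂ) 1, ‖h1 z‖ ≤ 1 / 4)
    (hh1c : ∀ z ∈ ball (0 : ℂ) 1, 12 / 7 * ‖h1 z‖ < α * (Real.pi / 2 - |(l z).im|)) :
    ∃ f : C(ball (0 : ℂ) 1, ℂ), f ∈ SStar α ∧ ∀ z : ball (0 : ℂ) 1, f z = F z * (1 + H z) := by
  have hne : ∀ z ∈ ball (0 : ℂ) 1, 7 / 8 ≤ ‖1 + H z‖ := by
    intro z hz
    have h2 := norm_sub_norm_le (1 : ℂ) (-H z)
    rw [norm_one, norm_neg, sub_neg_eq_add] at h2
    have := hHb z hz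
    linarith
  have hne0 : ∀ z ∈ ball (0 : ℂ) 1, 1 + H z ≠ 0 := by
    intro z hz h0
    have := hne z hz
    rw [h0, norm_zero] at this
    linarith
  have hslit : ∀ z ∈ ball (0 : ℂ) 1, 1 + H z ∈ slitPlane := by
    intro z hz
    left
    have h2 := (abs_le.1 ((abs_re_le_norm (H z)).trans (hHb z hz))).1
    rw [add_re, one_re]
    linarith
  set w : ℂ → ℂ := fun z => 1 + h1 z / (1 + H z) with hw
  have hwd : DifferentiableOn ℂ w (ball 0 1) := (hh1.div (hH.const_add 1) hne0).const_add 1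
  have hwb : ∀ z ∈ ball (0 : ℂ) 1, ‖h1 z / (1 + H z)‖ ≤ 8 / 7 * ‖h1 z‖ := by
    intro z hz
    rw [norm_div, div_le_iff₀ (by linarith [hne z hz])]
    have h2 := hne z hz
    have h3 := norm_nonneg (h1 z)
    nlinarith
  have hwslit : ∀ z ∈ ball (0 : ℂ) 1, w z ∈ slitPlane := by
    intro z hz
    left
    have h2 := hwb z hz
    have h3 := hh1b z hz
    have h4 := (abs_le.1 ((abs_re_le_norm (h1 z / (1 + H z))).trans h2)).1
    simp only [hw]
    rw [add_re, one_re]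
    linarith
  have hlog : ∀ z ∈ ball (0 : ℂ) 1, ‖log (w z)‖ ≤ 12 / 7 * ‖h1 z‖ := by
    intro z hz
    have h2 := hwb z hz
    have h3 := hh1b z hz
    have h4 := norm_log_one_add_half_le_self (z := h1 z / (1 + H z)) (by linarith)
    refine h4.trans ?_
    linarith
  have hαc : (α : ℂ) ≠ 0 := by exact_mod_cast hα.ne'
  have hh10 : h1 0 = 0 := by
    have := hHd 0 zero_mem_D
    rw [h.l_zero] at this
    simpa using this.symm
  have hd : Dat α (fun z => F z * (1 + H z)) (fun z => l z + (α : ℂ)⁻¹ * log (w z))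
      (fun z => P z + log (1 + H z)) := by
    refine ⟨h.l_diff.add ((hwd.clog hwslit).const_mul _), h.P_diff.add ((hH.const_add 1).clog hslit),
      ?_, ?_, ?_, ?_, ?_⟩
    · simp [hw, h.l_zero, hh10, hH0]
    · simp [h.P_zero, hH0]
    · intro z hz
      have e : (l z + (α : ℂ)⁻¹ * log (w z)).im = (l z).im + α⁻¹ * (log (w z)).im := by
        rw [add_im, ← ofReal_inv, im_ofReal_mul]
      rw [e]
      refine (abs_add_le _ _).trans_lt ?_
      rw [abs_mul, abs_of_pos (inv_pos.2 hα)]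
      have h2 := (abs_im_le_norm (log (w z))).trans (hlog z hz)
      have h3 := h2.trans_lt (hh1c z hz)
      have h4 : α⁻¹ * |(log (w z)).im| < Real.pi / 2 - |(l z).im| := by
        rw [inv_mul_lt_iff₀ hα]; exact h3
      linarith
    · intro z hz
      have hPd := (h.P_diff.differentiableAt (ball_nhds hz)).hasDerivAt
      have hHd' := (hH.differentiableAt (ball_nhds hz)).hasDerivAt
      have h2 : HasDerivAt (fun z => P z + log (1 + H z)) (deriv P z + deriv H z / (1 + H z)) z :=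
        hPd.add ((hHd'.const_add 1).clog (hslit z hz))
      have hw0 : w z ≠ 0 := slitPlane_ne_zero (hwslit z hz)
      rw [h2.deriv, mul_add (α : ℂ), mul_inv_cancel_left₀ hαc, exp_add, exp_log hw0, mul_add z,
        h.eq z hz, ← mul_div_assoc, hHd z hz]
      simp only [hw]
      ring
    · intro z hz
      rw [h.F_eq z hz, exp_add, exp_log (hne0 z hz)]
      ring
  exact exists_mem_of_dat hα hα1 hd

/-- extreme points are generated by extreme points of the unit ball of `H^∞` -/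
theorem ballExtreme_of_extreme {α : ℝ} (hα : 0 < α) (hα1 : α < 1) {f : C(ball (0 : ℂ) 1, ℂ)}
    (hf : f ∈ SStar α) {ω : ℂ → ℂ} (hω : IsSchwarz ω) (hg : Gen α ω f)
    (hext : f ∈ (closure (convexHull ℝ (SStar α))).extremePoints ℝ) : BallExtreme ω := by
  obtain ⟨F, l, P, hfF, h, hl⟩ := exists_dat_gen hα hα1 hf hω hg
  obtain ⟨hωd, hω0, hω1⟩ := hω
  intro η hη hb
  have hη2 : ∀ z ∈ ball (0 : ℂ) 1, ‖η z‖ ^ 2 ≤ 1 - ‖ω z‖ ^ 2 := by
    intro z hz
    have h1 := parallelogram_law_with_norm ℝ (ω z) (η z)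
    obtain ⟨h2, h3⟩ := hb z hz
    nlinarith [norm_nonneg (ω z + η z), norm_nonneg (ω z - η z)]
  set c : ℝ := α / 16 with hc
  have hc0 : 0 < c := by positivity
  have hqd : DifferentiableOn ℂ (fun z => exp (α * l z)) (ball 0 1) := (h.l_diff.const_mul (α : ℂ)).cexp
  obtain ⟨H, hH, hH0, hHd⟩ := exists_primitive (h := fun z => (c : ℂ) * (η z ^ 2 *
    (exp (α * l z) * (1 - ω z)))) (((hη.pow 2).mul (hqd.mul (hωd.const_sub 1))).const_mul _)
  -- bounds
  have hq2 : ∀ z ∈ ball (0 : ℂ) 1, ‖exp (α * l z) * (1 - ω z)‖ ≤ 2 := by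
    intro z hz
    have hw := hω1 z hz
    have h1 : ‖1 - ω z‖ ≤ 2 := by
      refine (norm_sub_le _ _).trans ?_
      rw [norm_one]; linarith
    have h2 : ‖1 + ω z‖ ≤ 2 := by
      refine (norm_add_le _ _).trans ?_
      rw [norm_one]; linarith
    have hn : ‖exp (l z)‖ * ‖1 - ω z‖ = ‖1 + ω z‖ := by
      rw [hl z hz, norm_div, div_mul_cancel₀ _ (norm_ne_zero_iff.2 (one_sub_ne hw))]
    rw [norm_mul, norm_exp]
    rw [norm_exp] at hn
    have hre : ((α : ℂ) * l z).re = α * (l z).re := by simp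
    rw [hre]
    rcases le_total (l z).re 0 with h3 | h3
    · have : Real.exp (α * (l z).re) ≤ 1 := by
        rw [← Real.exp_zero]
        exact Real.exp_le_exp.2 (by nlinarith)
      calc Real.exp (α * (l z).re) * ‖1 - ω z‖ ≤ 1 * ‖1 - ω z‖ := by gcongr
        _ ≤ 2 := by linarith
    · have : Real.exp (α * (l z).re) ≤ Real.exp (l z).re := Real.exp_le_exp.2 (by nlinarith)
      calc Real.exp (α * (l z).re) * ‖1 - ω z‖ ≤ Real.exp (l z).re * ‖1 - ω z‖ := by gcongr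
        _ ≤ 2 := by rw [hn]; exact h2
  have hηle : ∀ z ∈ ball (0 : ℂ) 1, ‖η z‖ ^ 2 ≤ 1 := fun z hz => by
    have := hη2 z hz
    nlinarith [norm_nonneg (ω z)]
  have hHb : ∀ z ∈ ball (0 : ℂ) 1, ‖H z‖ ≤ 1 / 8 := by
    intro z hz
    have h1 := (convex_ball (0 : ℂ) 1).norm_image_sub_le_of_norm_hasDerivWithin_le
      (f := H) (C := 2 * c) (fun w hw => (hHd w hw).hasDerivWithinAt) (fun w hw => by
        rw [norm_mul, norm_mul, norm_real, Real.norm_eq_abs, abs_of_pos hc0, norm_pow]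
        have h2 := hηle w hw
        have h3 := hq2 w hw
        calc c * (‖η w‖ ^ 2 * ‖exp (α * l w) * (1 - ω w)‖) ≤ c * (1 * 2) := by gcongr
          _ = 2 * c := by ring) zero_mem_D hz
    rw [hH0, sub_zero, sub_zero] at h1
    have h2 := mem_ball_zero_iff.1 hz
    have h3 := norm_nonneg z
    nlinarith
  set h1 : ℂ → ℂ := fun z => (c : ℂ) * (z * (η z ^ 2 * (1 - ω z))) with hh1
  have hh1d : DifferentiableOn ℂ h1 (ball 0 1) :=
    (differentiableOn_id.mul ((hη.pow 2).mul (hωd.const_sub 1))).const_mul _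
  have hzH : ∀ z ∈ ball (0 : ℂ) 1, z * deriv H z = exp (α * l z) * h1 z := by
    intro z hz
    rw [(hHd z hz).deriv]
    simp only [hh1]
    ring
  have hh1n : ∀ z ∈ ball (0 : ℂ) 1, ‖h1 z‖ ≤ c * ((1 - ‖ω z‖ ^ 2) * ‖1 - ω z‖) := by
    intro z hz
    simp only [hh1]
    rw [norm_mul, norm_mul, norm_mul, norm_real, Real.norm_eq_abs, abs_of_pos hc0, norm_pow]
    have h2 := hη2 z hz
    have h3 := mem_ball_zero_iff.1 hz
    have h4 : 0 ≤ ‖η z‖ ^ 2 * ‖1 - ω z‖ := by positivity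
    calc c * (‖z‖ * (‖η z‖ ^ 2 * ‖1 - ω z‖)) ≤ c * (1 * (‖η z‖ ^ 2 * ‖1 - ω z‖)) := by gcongr
      _ ≤ c * (1 * ((1 - ‖ω z‖ ^ 2) * ‖1 - ω z‖)) := by gcongr
      _ = _ := by ring
  have hn1 : ∀ z ∈ ball (0 : ℂ) 1, ‖1 - ω z‖ ≤ 2 := by
    intro z hz
    refine (norm_sub_le _ _).trans ?_
    rw [norm_one]; linarith [hω1 z hz]
  have hh1b : ∀ z ∈ ball (0 : ℂ) 1, ‖h1 z‖ ≤ 1 / 4 := by
    intro z hz
    have h2 := hh1n z hz
    have h3 := hn1 z hz
    have h4 : (1 - ‖ω z‖ ^ 2) * ‖1 - ω z‖ ≤ 1 * 2 := by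
      apply mul_le_mul _ h3 (norm_nonneg _) zero_le_one
      nlinarith [norm_nonneg (ω z)]
    nlinarith
  have hh1c : ∀ z ∈ ball (0 : ℂ) 1, 12 / 7 * ‖h1 z‖ < α * (Real.pi / 2 - |(l z).im|) := by
    intro z hz
    have hw := hω1 z hz
    have h2 := cos_im hw (hl z hz)
    have h3 := cos_le (h.im_lt z hz)
    have h4 : 0 < 1 - ‖ω z‖ ^ 2 := by nlinarith [norm_nonneg (ω z)]
    have h5 := hn1 z hz
    have hw2 : ‖ω z ^ 2‖ < 1 := by rw [norm_pow]; nlinarith [norm_nonneg (ω z)]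
    have h6 : ‖1 - ω z ^ 2‖ ≤ 2 := by
      refine (norm_sub_le _ _).trans ?_
      rw [norm_one]; linarith
    have h7 : 0 < ‖1 - ω z ^ 2‖ := norm_pos_iff.2 (one_sub_ne hw2)
    have h8 : 1 - ‖ω z‖ ^ 2 ≤ 2 * (Real.pi / 2 - |(l z).im|) := by
      rw [← h2]
      have h9 : 0 < Real.pi / 2 - |(l z).im| := by linarith [h.im_lt z hz]
      calc Real.cos (l z).im * ‖1 - ω z ^ 2‖ ≤ (Real.pi / 2 - |(l z).im|) * ‖1 - ω z ^ 2‖ := by
            gcongr
        _ ≤ (Real.pi / 2 - |(l z).im|) * 2 := by gcongr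
        _ = _ := by ring
    have h10 := hh1n z hz
    have h11 : c * ((1 - ‖ω z‖ ^ 2) * ‖1 - ω z‖) ≤ c * ((1 - ‖ω z‖ ^ 2) * 2) := by gcongr
    have h12 : 0 < Real.pi / 2 - |(l z).im| := by linarith [h.im_lt z hz]
    have h13 : c * ((1 - ‖ω z‖ ^ 2) * 2) ≤ α / 4 * (Real.pi / 2 - |(l z).im|) := by
      rw [hc]; nlinarith
    nlinarith [mul_pos hα h12]
  obtain ⟨fp, hfp, hfp'⟩ := perturb hα hα1 h hH hH0 hzH hh1d hHb hh1b hh1c
  obtain ⟨fm, hfm, hfm'⟩ := perturb (H := fun z => -H z) (h1 := fun z => -h1 z) hα hα1 h hH.neg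
    (by simp [hH0]) (fun z hz => by
      have e : deriv (fun z => -H z) z = -deriv H z := deriv.fun_neg
      rw [e, mul_neg, hzH z hz, mul_neg]) hh1d.neg
    (fun z hz => by rw [norm_neg]; exact hHb z hz) (fun z hz => by rw [norm_neg]; exact hh1b z hz)
    (fun z hz => by rw [norm_neg]; exact hh1c z hz)
  have hseg : f ∈ openSegment ℝ fp fm := by
    refine ⟨1 / 2, 1 / 2, by norm_num, by norm_num, by norm_num, ?_⟩
    ext z
    simp only [ContinuousMap.coe_add, ContinuousMap.coe_smul, Pi.add_apply, Pi.smul_apply,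
      real_smul]
    rw [hfp' z, hfm' z, hfF z]
    push_cast
    ring
  have heq := hext.2 (subset_closure (subset_convexHull ℝ _ hfp))
    (subset_closure (subset_convexHull ℝ _ hfm)) hseg
  have hHz : ∀ z ∈ ball (0 : ℂ) 1, H z = 0 := by
    intro z hz
    by_cases hz0 : z = 0
    · rw [hz0, hH0]
    have h2 := hfp' ⟨z, hz⟩
    rw [heq, hfF ⟨z, hz⟩] at h2
    have h3 : F z ≠ 0 := by
      rw [h.F_eq z hz]
      exact mul_ne_zero hz0 (exp_ne_zero _)
    have h4 : F z * H z = 0 := by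
      simp only at h2
      linear_combination -h2
    exact (mul_eq_zero.1 h4).resolve_left h3
  intro z hz
  have h2 : deriv H z = 0 := by
    have : H =ᶠ[𝓝 z] fun _ => 0 := by
      filter_upwards [ball_nhds hz] with w hw using hHz w hw
    rw [this.deriv_eq]
    simp
  rw [(hHd z hz).deriv] at h2
  have hcc : (c : ℂ) ≠ 0 := by exact_mod_cast hc0.ne'
  have h3 := (mul_eq_zero.1 h2).resolve_left hcc
  rcases mul_eq_zero.1 h3 with h4 | h4
  · exact pow_eq_zero_iff two_ne_zero |>.1 h4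
  · rcases mul_eq_zero.1 h4 with h5 | h5
    · exact absurd h5 (exp_ne_zero _)
    · exact absurd h5 (one_sub_ne (hω1 z hz))

end Pool.Agent.MP07129f
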