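import Pool.Agent.Lib.MP_07129f_an.Dat

/-!
Pointwise inequalities for strongly starlike functions of small order.
-/

namespace Pool.Agent.MP07129f

open Complex Metric Set Filter Topology

/-- for `w = exp(β i + a)` with small `β` -/
lemma im_le_re {w : ℂ} {b : ℝ} (h : |w.im| ≤ b) :
    |(exp w).im| ≤ b * ‖exp w‖ ∧ (1 - b ^ 2 / 2) * ‖exp w‖ ≤ (exp w).re := by
  have hb0 : 0 ≤ b := (abs_nonneg _).trans h
  rw [exp_im, exp_re, norm_exp, abs_mul, abs_of_pos (Real.exp_pos _)]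
  have h1 : |Real.sin w.im| ≤ b := by
    refine le_trans ?_ h
    have := Real.abs_sin_sub_sin_le w.im 0
    simpa using this
  have h2 : 1 - b ^ 2 / 2 ≤ Real.cos w.im := by
    have := Real.one_sub_sq_div_two_le_cos (x := w.im)
    have h3 : w.im ^ 2 ≤ b ^ 2 := by
      rw [← sq_abs w.im]; gcongr
    linarith
  constructor
  · rw [mul_comm b]
    gcongr
  · rw [mul_comm (1 - b ^ 2 / 2)]
    gcongr

lemma ratio_bound {w : ℂ} (h : |w.im| ≤ 0.1571) :
    |(exp w).im| ≤ 0.16 * (exp w).re := by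
  obtain ⟨h1, h2⟩ := im_le_re h
  have h3 := norm_nonneg (exp w)
  nlinarith

lemma ratio_bound' {w : ℂ} (h : |w.im| ≤ 0.0786) :
    |(exp w).im| ≤ 0.08 * (exp w).re := by
  obtain ⟨h1, h2⟩ := im_le_re h
  have h3 := norm_nonneg (exp w)
  nlinarith

/-- the quadratic inequality -/
lemma im_sq_le {w : ℂ} (h : |w.im| ≤ 0.16 * w.re) :
    w.im ^ 2 ≤ |w.im| / 5 + ((w - 1) ^ 2).re / 10 := by
  have e : ((w - 1) ^ 2).re = (w.re - 1) ^ 2 - w.im ^ 2 := by
    rw [pow_two, mul_re]; simp; ring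
  rw [e]
  set X := |w.im| with hX
  have hX0 : 0 ≤ X := abs_nonneg _
  have hX2 : w.im ^ 2 = X ^ 2 := (sq_abs _).symm
  rw [hX2]
  have h1 : X / 0.16 - 1 ≤ w.re - 1 := by
    rw [div_eq_mul_inv]; norm_num; linarith
  by_cases hs : X ≤ 2 / 11
  · nlinarith [sq_nonneg (w.re - 1)]
  · push Not at hs
    have h2 : 0 ≤ X / 0.16 - 1 := by
      rw [div_eq_mul_inv]; norm_num; linarith
    have h3 : (X / 0.16 - 1) ^ 2 ≤ (w.re - 1) ^ 2 := by gcongr
    have h4 : (X / 0.16 - 1) ^ 2 = 39.0625 * X ^ 2 - 12.5 * X + 1 := by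
      rw [div_eq_mul_inv]; norm_num; ring
    nlinarith [sq_nonneg (X - 0.187)]

lemma norm_sq_le {w : ℂ} (h : |w.im| ≤ 0.16 * w.re) : ‖w‖ ^ 2 ≤ 1.06 * (w ^ 2).re := by
  have e : (w ^ 2).re = w.re ^ 2 - w.im ^ 2 := by
    rw [pow_two, mul_re]; ring
  have e2 : ‖w‖ ^ 2 = w.re ^ 2 + w.im ^ 2 := by
    rw [← normSq_eq_norm_sq, normSq_apply]; ring
  have h1 : w.im ^ 2 ≤ 0.0256 * w.re ^ 2 := by
    rw [← sq_abs w.im]
    have := abs_nonneg w.im
    nlinarith
  rw [e, e2]
  nlinarith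

lemma norm_sq_le' {w : ℂ} (h : |w.im| ≤ 0.08 * w.re) : ‖w‖ ^ 2 ≤ 1.013 * (w ^ 2).re := by
  have e : (w ^ 2).re = w.re ^ 2 - w.im ^ 2 := by
    rw [pow_two, mul_re]; ring
  have e2 : ‖w‖ ^ 2 = w.re ^ 2 + w.im ^ 2 := by
    rw [← normSq_eq_norm_sq, normSq_apply]; ring
  have h1 : w.im ^ 2 ≤ 0.0064 * w.re ^ 2 := by
    rw [← sq_abs w.im]
    have := abs_nonneg w.im
    nlinarith
  rw [e, e2]
  nlinarith

/-- the sign of the imaginary part -/
noncomputable def sg (x : ℝ) : ℝ := if 0 ≤ x then 1 else -1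

lemma sg_mul (x : ℝ) : sg x * x = |x| := by
  unfold sg
  split_ifs with h
  · rw [one_mul, abs_of_nonneg h]
  · rw [abs_of_neg (not_le.1 h)]; ring

lemma abs_sg (x : ℝ) : |sg x| = 1 := by
  unfold sg
  split_ifs <;> simp

/-- one-sided inequality on the sector -/
lemma sector_ineq {α : ℝ} (hα : 0 < α) (hα1 : α ≤ 1 / 20) {lf lg : ℂ}
    (hf : |lf.im| < Real.pi / 2) (hg : |lg.im| < Real.pi / 2) :
    |(exp (α * (lg - lf))).im| - 2 * α * (Real.pi / 2 - |lf.im|) * ‖exp (α * (lg - lf))‖ ≤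
      -sg lf.im * (exp (α * (lg - lf))).im := by
  set s := sg lf.im with hs
  set η := Real.pi / 2 - |lf.im| with hη
  have hη0 : 0 < η := by linarith
  rw [exp_im, norm_exp, abs_mul, abs_of_pos (Real.exp_pos _)]
  have him : ((α : ℂ) * (lg - lf)).im = α * (lg.im - lf.im) := by simp
  rw [him]
  set E := Real.exp ((α : ℂ) * (lg - lf)).re with hE
  have hE0 : 0 < E := Real.exp_pos _
  have hpi := Real.pi_pos
  have hpi4 := Real.pi_le_four
  have hs1 : s = 1 ∨ s = -1 := by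
    rw [hs]; unfold sg; split_ifs <;> simp
  have hsin : s * Real.sin (α * (lg.im - lf.im)) = Real.sin (α * (s * (lg.im - lf.im))) := by
    rcases hs1 with h | h <;> rw [h]
    · simp
    · rw [neg_one_mul, neg_one_mul, mul_neg, Real.sin_neg]
  have habs : |Real.sin (α * (lg.im - lf.im))| = |Real.sin (α * (s * (lg.im - lf.im)))| := by
    rw [← hsin, abs_mul, hs, abs_sg, one_mul]
  set b := s * (lg.im - lf.im) with hb
  have hb1 : b ≤ η := by
    have h1 : s * lf.im = |lf.im| := sg_mul _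
    have h2 : s * lg.im ≤ |lg.im| := by
      refine (le_abs_self _).trans ?_
      rw [abs_mul, hs, abs_sg, one_mul]
    rw [hb, mul_sub, h1]
    linarith
  have hb2 : -Real.pi < b := by
    have h1 := abs_lt.1 hf
    have h2 := abs_lt.1 hg
    rw [hb]
    rcases hs1 with h | h <;> rw [h] <;> nlinarith
  have hneg : -s * (E * Real.sin (α * (lg.im - lf.im))) = -(E * Real.sin (α * b)) := by
    rw [← hsin]; ring
  rw [habs, hneg]
  have hηpi : η ≤ Real.pi := by
    have := abs_nonneg lf.im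
    rw [hη]; linarith
  by_cases hb0 : b ≤ 0
  · have h1 : Real.sin (α * b) ≤ 0 := by
      apply Real.sin_nonpos_of_nonpos_of_neg_pi_le
      · exact mul_nonpos_of_nonneg_of_nonpos hα.le hb0
      · nlinarith
    rw [abs_of_nonpos h1]
    have h2 : 0 ≤ 2 * α * η * E := by positivity
    linarith
  · push Not at hb0
    have h0 : 0 < α * b := mul_pos hα hb0
    have h1 : 0 ≤ Real.sin (α * b) := by
      apply Real.sin_nonneg_of_nonneg_of_le_pi h0.le
      nlinarith
    have h2 : Real.sin (α * b) ≤ α * η :=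
      (Real.sin_le h0.le).trans (mul_le_mul_of_nonneg_left hb1 hα.le)
    rw [abs_of_nonneg h1]
    nlinarith [mul_le_mul_of_nonneg_left h2 hE0.le]

/-- the main pointwise lower bound -/
lemma main_pt {α : ℝ} (hα : 0 < α) (hα1 : α ≤ 1 / 20) {lf lg R : ℂ}
    (hf : |lf.im| < Real.pi / 2) (hg : |lg.im| < Real.pi / 2) (hR : ‖R‖ ≤ 0.5143) :
    0.518 * |(exp (α * (lg - lf))).im| -
        0.17 * ((Real.pi / 2 - |lf.im|) * ‖exp (α * (lg - lf))‖) -
        1.675 * (|(exp (α * (lg - lf)) - 1).re| * |R.im|) ≤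
      -sg lf.im * (exp R * (exp (α * (lg - lf)) - 1)).im := by
  have h1 := sector_ineq hα hα1 hf hg
  set w := exp (α * (lg - lf)) with hw
  set η := Real.pi / 2 - |lf.im| with hη
  set s := sg lf.im with hs
  have hη0 : 0 < η := by linarith
  have hGu : Real.exp 0.5143 ≤ 1.6725 := by
    have := Real.exp_bound' (x := 0.5143) (by norm_num) (by norm_num) (n := 6) (by norm_num)
    refine this.trans ?_
    norm_num [Finset.sum_range_succ, Nat.factorial]
  have hRre := abs_le.1 ((abs_re_le_norm R).trans hR)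
  have hRim : |R.im| ≤ 0.5143 := (abs_im_le_norm R).trans hR
  have hG1 : Real.exp R.re ≤ 1.6725 := (Real.exp_le_exp.2 hRre.2).trans hGu
  have hG2 : (1.6725 : ℝ)⁻¹ ≤ Real.exp R.re := by
    calc (1.6725 : ℝ)⁻¹ ≤ (Real.exp 0.5143)⁻¹ := inv_anti₀ (Real.exp_pos _) hGu
      _ = Real.exp (-0.5143) := (Real.exp_neg _).symm
      _ ≤ _ := Real.exp_le_exp.2 hRre.1
  have hcos : 0.8677 ≤ Real.cos R.im := by
    have := Real.one_sub_sq_div_two_le_cos (x := R.im)
    have h3 : R.im ^ 2 ≤ 0.5143 ^ 2 := by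
      rw [← sq_abs R.im]; gcongr
    norm_num at h3 ⊢
    linarith
  have hcos1 := Real.cos_le_one R.im
  have hsin : |Real.sin R.im| ≤ |R.im| := by
    have := Real.abs_sin_sub_sin_le R.im 0
    simpa using this
  have hre : (w - 1).im = w.im := by simp
  have e : -s * (exp R * (w - 1)).im = Real.exp R.re * (Real.cos R.im * (-s * w.im) +
      -s * (Real.sin R.im * (w - 1).re)) := by
    rw [mul_im, exp_re, exp_im, hre]
    ring
  rw [e]
  set G := Real.exp R.re with hG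
  have hG0 : 0 < G := Real.exp_pos _
  have h2 : -(|(w - 1).re| * |R.im|) ≤ -s * (Real.sin R.im * (w - 1).re) := by
    have h3 : |-s * (Real.sin R.im * (w - 1).re)| ≤ |(w - 1).re| * |R.im| := by
      rw [abs_mul, abs_neg, hs, abs_sg, one_mul, abs_mul, mul_comm]
      gcongr
    exact (abs_le.1 h3).1
  set U := |(w - 1).re| * |R.im| with hU
  have hU0 : 0 ≤ U := by positivity
  set X := |w.im| with hX
  have hX0 : 0 ≤ X := abs_nonneg _
  have hw0 := norm_nonneg w
  have hηw : 0 ≤ η * ‖w‖ := by positivity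
  have h3 : X - 0.1 * (η * ‖w‖) ≤ -s * w.im := by
    refine le_trans ?_ h1
    nlinarith
  -- G cos >= 0.518
  have hGc : 0.518 ≤ G * Real.cos R.im := by
    calc (0.518 : ℝ) ≤ (1.6725)⁻¹ * 0.8677 := by norm_num
      _ ≤ G * Real.cos R.im := by gcongr
  have hGc2 : G * Real.cos R.im ≤ 1.6725 := by
    calc G * Real.cos R.im ≤ 1.6725 * 1 := by gcongr
      _ = _ := by norm_num
  have h4 : G * Real.cos R.im * (X - 0.1 * (η * ‖w‖)) ≤ G * Real.cos R.im * (-s * w.im) :=
    mul_le_mul_of_nonneg_left h3 (by linarith)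
  have h5 : G * (-U) ≤ G * (-s * (Real.sin R.im * (w - 1).re)) :=
    mul_le_mul_of_nonneg_left h2 hG0.le
  nlinarith [mul_le_mul_of_nonneg_right hGc hX0, mul_le_mul_of_nonneg_right hGc2 hηw,
    mul_le_mul_of_nonneg_right hG1 hU0]

end Pool.Agent.MP07129f
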