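import Pool.Agent.Lib.MP_07129f_an.Family
import Pool.Agent.Lib.MP_07129f_an.Defs

/-!
From stability to extreme points.
-/

namespace Pool.Agent.MP07129f

open Complex Metric Set Filter Topology MeasureTheory

lemma exists_close {S : Set C(ball (0 : ℂ) 1, ℂ)} {x : C(ball (0 : ℂ) 1, ℂ)} (hx : x ∈ closure S)
    {ρ : ℝ} (hρ : ρ < 1) {δ : ℝ} (hδ : 0 < δ) :
    ∃ y ∈ S, ∀ z : ball (0 : ℂ) 1, ‖(z : ℂ)‖ ≤ ρ → ‖y z - x z‖ ≤ δ := by
  set K : Set (ball (0 : ℂ) 1) := {z | ‖(z : ℂ)‖ ≤ ρ} with hK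
  have hKc : IsCompact K := by
    rw [Subtype.isCompact_iff]
    have : ((↑) '' K : Set ℂ) = closedBall 0 ρ := by
      ext z
      simp only [mem_image, mem_closedBall_zero_iff]
      constructor
      · rintro ⟨w, hw, rfl⟩; exact hw
      · intro hz
        exact ⟨⟨z, by rw [mem_ball_zero_iff]; linarith⟩, hz, rfl⟩
    rw [this]
    exact isCompact_closedBall 0 ρ
  have : CompactSpace K := isCompact_iff_compactSpace.1 hKc
  have h1 : x.restrict K ∈ closure ((fun f : C(ball (0 : ℂ) 1, ℂ) => f.restrict K) '' S) :=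
    image_closure_subset_closure_image (ContinuousMap.continuous_restrict K) ⟨x, hx, rfl⟩
  obtain ⟨_, ⟨y, hy, rfl⟩, hd⟩ := Metric.mem_closure_iff.1 h1 δ hδ
  refine ⟨y, hy, fun z hz => ?_⟩
  have h2 := ContinuousMap.dist_apply_le_dist (f := x.restrict K) (g := y.restrict K) (⟨z, hz⟩ : K)
  have h3 : dist (x z) (y z) ≤ δ := h2.trans hd.le
  rwa [dist_comm, dist_eq_norm] at h3

/-- the data of a member of the class generated by `ω` -/
lemma exists_dat_gen {α : ℝ} (hα : 0 < α) (hα1 : α < 1) {f : C(ball (0 : ℂ) 1, ℂ)}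
    (hf : f ∈ SStar α) {ω : ℂ → ℂ} (hω : IsSchwarz ω) (hg : Gen α ω f) :
    ∃ F l P : ℂ → ℂ, (∀ z : ball (0 : ℂ) 1, f z = F z) ∧ Dat α F l P ∧
      ∀ z ∈ ball (0 : ℂ) 1, exp (l z) = (1 + ω z) / (1 - ω z) := by
  obtain ⟨F, hfF, hF, hinj, hF0, hF1, hq⟩ := hf
  obtain ⟨l, P, hd⟩ := exists_dat hα hF hinj hF0 hF1 hq
  refine ⟨F, l, P, hfF, hd, fun z hz => ?_⟩
  obtain ⟨G, hfG, hG, hG1, hGω⟩ := hg
  obtain ⟨_, hω0, hω1⟩ := hω
  have hFG : ∀ w ∈ ball (0 : ℂ) 1, G w = F w := fun w hw => by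
    have h1 := hfF ⟨w, hw⟩
    have h2 := hfG ⟨w, hw⟩
    exact h2.symm.trans h1
  by_cases hz0 : z = 0
  · rw [hz0, hd.l_zero, hω0]; simp
  have hdG : deriv G z = deriv F z := by
    apply Filter.EventuallyEq.deriv_eq
    filter_upwards [ball_nhds hz] with w hw using hFG w hw
  have h1 := hGω z hz
  rw [hFG z hz, hdG] at h1
  have hFz : F z ≠ 0 := by
    intro h0
    rw [← hF0] at h0
    exact hz0 (hinj hz zero_mem_D h0)
  have h2 := hd.quot hz hz0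
  rw [h1, mul_div_cancel_left₀ _ hFz] at h2
  -- positivity of the real part of the Cayley transform
  have hw := hω1 z hz
  set w := ω z with hw'
  have hne := one_sub_ne hw
  have hne' := one_add_ne hw
  have hy0 : (1 + w) / (1 - w) ≠ 0 := div_ne_zero hne' hne
  have hyre : 0 < ((1 + w) / (1 - w)).re := by
    have e : (1 + w) / (1 - w) = (1 + w) * (starRingEnd ℂ) (1 - w) * ((‖1 - w‖ ^ 2 : ℝ) : ℂ)⁻¹ := by
      have h2 : ((‖1 - w‖ ^ 2 : ℝ) : ℂ) = (1 - w) * (starRingEnd ℂ) (1 - w) := by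
        rw [mul_conj, normSq_eq_norm_sq]
      have h3 : (starRingEnd ℂ) (1 - w) ≠ 0 := by
        rw [Ne, map_eq_zero]; exact hne
      rw [h2]
      field_simp
    rw [e, ← ofReal_inv, re_mul_ofReal]
    apply mul_pos
    · have h4 : ((1 + w) * (starRingEnd ℂ) (1 - w)).re = 1 - ‖w‖ ^ 2 := by
        rw [← normSq_eq_norm_sq, normSq_apply]
        simp
        ring
      rw [h4]
      nlinarith [norm_nonneg w]
    · have := norm_pos_iff.2 hne
      positivity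
  have harg : |arg ((1 + w) / (1 - w))| < Real.pi / 2 := abs_arg_lt_pi_div_two_iff.2 (Or.inl hyre)
  rw [cpow_def_of_ne_zero hy0] at h2
  have hpi := Real.pi_pos
  have h3 : log ((1 + w) / (1 - w)) * (α : ℂ) = (α : ℂ) * l z := by
    have him1 : (log ((1 + w) / (1 - w)) * (α : ℂ)).im = α * arg ((1 + w) / (1 - w)) := by
      rw [im_mul_ofReal, log_im, mul_comm]
    have hl := abs_lt.1 (hd.im_abs_lt hα hz)
    have harg' := abs_lt.1 harg
    apply exp_inj_of_neg_pi_lt_of_le_pi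
    · rw [him1]; nlinarith
    · rw [him1]; nlinarith
    · nlinarith
    · nlinarith
    · exact h2
  have hαc : (α : ℂ) ≠ 0 := by exact_mod_cast hα.ne'
  have h4 : l z = log ((1 + w) / (1 - w)) := by
    have : (α : ℂ) * l z = (α : ℂ) * log ((1 + w) / (1 - w)) := by rw [← h3]; ring
    exact mul_left_cancel₀ hαc this
  rw [h4, exp_log hy0]

/-- inner functions generate extreme points -/
theorem extreme_of_inner {α : ℝ} (hα : 0 < α) (hα1 : α ≤ 1 / 20) {f : C(ball (0 : ℂ) 1, ℂ)}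
    (hf : f ∈ SStar α) {ω : ℂ → ℂ} (hω : IsSchwarz ω) (hg : Gen α ω f) (hin : IsInner ω) :
    f ∈ (closure (convexHull ℝ (SStar α))).extremePoints ℝ := by
  obtain ⟨F, l, P, hfF, hd, hl⟩ := exists_dat_gen hα (by linarith) hf hω hg
  have hE : ∀ τ > 0, ∀ᶠ r in 𝓝[<] (1 : ℝ), A r (fun z => et l z ^ 2) ≤ τ := fun τ hτ =>
    exists_radius hd hω.1 hω.2.1 hω.2.2 hl hin hτ
  refine ⟨subset_closure (subset_convexHull ℝ _ hf), ?_⟩
  rintro x1 hx1 x2 hx2 ⟨a, b, ha, hb, hab, hsum⟩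
  ext z₀
  have hz₀ := z₀.2
  have hz1 : ‖(z₀ : ℂ)‖ < 1 := mem_ball_zero_iff.1 hz₀
  rw [← sub_eq_zero, ← norm_le_zero_iff]
  refine le_of_forall_pos_le_add fun ε hε => ?_
  rw [zero_add]
  obtain ⟨ρ, hρ, δ, hδ, hst⟩ := stability hd hα hα1 hE hz₀ (ε := a * ε / 2) (by positivity)
  set ρ' := max ρ ‖(z₀ : ℂ)‖ with hρ'
  have hρ'1 : ρ' < 1 := max_lt hρ hz1
  set δ' := min δ (ε / 2) with hδ'
  have hδ'0 : 0 < δ' := lt_min hδ (by positivity)
  obtain ⟨y1, hy1, hc1⟩ := exists_close hx1 hρ'1 hδ'0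
  obtain ⟨y2, hy2, hc2⟩ := exists_close hx2 hρ'1 hδ'0
  obtain ⟨ι1, _, w1, g1, hw1, hw1s, hg1, hy1e⟩ := mem_convexHull_iff_exists_fintype.1 hy1
  obtain ⟨ι2, _, w2, g2, hw2, hw2s, hg2, hy2e⟩ := mem_convexHull_iff_exists_fintype.1 hy2
  -- data for the members
  have hdat : ∀ g ∈ SStar α, ∃ G : (ℂ → ℂ) × (ℂ → ℂ) × (ℂ → ℂ),
      (∀ z : ball (0 : ℂ) 1, g z = G.1 z) ∧ Dat α G.1 G.2.1 G.2.2 := by
    rintro g ⟨G, hgG, hG, hinj, hG0, hG1, hq⟩
    obtain ⟨l', P', hd'⟩ := exists_dat hα hG hinj hG0 hG1 hq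
    exact ⟨⟨G, l', P'⟩, hgG, hd'⟩
  choose! T hT1 hT2 using hdat
  set gg : ι1 ⊕ ι2 → C(ball (0 : ℂ) 1, ℂ) := Sum.elim g1 g2 with hgg
  set ν : ι1 ⊕ ι2 → ℝ := Sum.elim (fun i => a * w1 i) (fun i => b * w2 i) with hν
  have hggS : ∀ j, gg j ∈ SStar α := by
    rintro (i | i)
    · exact hg1 i
    · exact hg2 i
  have h1 := hst (ι1 ⊕ ι2) ν (fun j => (T (gg j)).1) (fun j => (T (gg j)).2.1)
    (fun j => (T (gg j)).2.2) (fun j => hT2 _ (hggS j))
    (by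
      rintro (i | i)
      · exact mul_nonneg ha.le (hw1 i)
      · exact mul_nonneg hb.le (hw2 i))
    (by
      rw [Fintype.sum_sum_type]
      simp only [hν, Sum.elim_inl, Sum.elim_inr]
      rw [← Finset.mul_sum, ← Finset.mul_sum, hw1s, hw2s]
      linarith)
    (by
      intro ζ hζ
      have hζn := mem_closedBall_zero_iff.1 hζ
      have hζ1 : ζ ∈ ball (0 : ℂ) 1 := by rw [mem_ball_zero_iff]; linarith
      have hζρ : ‖ζ‖ ≤ ρ' := hζn.trans (le_max_left _ _)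
      set Z : ball (0 : ℂ) 1 := ⟨ζ, hζ1⟩ with hZ
      rw [Fintype.sum_sum_type]
      simp only [hν, hgg, Sum.elim_inl, Sum.elim_inr]
      have e1 : ∀ i, (T (g1 i)).1 ζ = g1 i Z := fun i => (hT1 _ (hg1 i) Z).symm
      have e2 : ∀ i, (T (g2 i)).1 ζ = g2 i Z := fun i => (hT1 _ (hg2 i) Z).symm
      simp_rw [e1, e2]
      have e3 : ∑ i, ((a * w1 i : ℝ) : ℂ) * g1 i Z = a * y1 Z := by
        rw [← hy1e, ContinuousMap.coe_sum, Finset.sum_apply, Finset.mul_sum]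
        refine Finset.sum_congr rfl fun i _ => ?_
        simp [mul_assoc]
      have e4 : ∑ i, ((b * w2 i : ℝ) : ℂ) * g2 i Z = b * y2 Z := by
        rw [← hy2e, ContinuousMap.coe_sum, Finset.sum_apply, Finset.mul_sum]
        refine Finset.sum_congr rfl fun i _ => ?_
        simp [mul_assoc]
      have e5 : F ζ = a * x1 Z + b * x2 Z := by
        rw [← hfF Z, ← hsum]
        simp
      rw [e3, e4, e5]
      have e6 : (a : ℂ) * y1 Z + b * y2 Z - (a * x1 Z + b * x2 Z) =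
          a * (y1 Z - x1 Z) + b * (y2 Z - x2 Z) := by ring
      rw [e6]
      refine (norm_add_le _ _).trans ?_
      rw [norm_mul, norm_mul, norm_real, norm_real, Real.norm_eq_abs, Real.norm_eq_abs,
        abs_of_pos ha, abs_of_pos hb]
      have h2 := hc1 Z hζρ
      have h3 := hc2 Z hζρ
      calc a * ‖y1 Z - x1 Z‖ + b * ‖y2 Z - x2 Z‖ ≤ a * δ' + b * δ' := by gcongr
        _ = δ' := by rw [← add_mul, hab, one_mul]
        _ ≤ δ := min_le_left _ _)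
  -- conclusion at z₀
  rw [Fintype.sum_sum_type] at h1
  simp only [hν, hgg, Sum.elim_inl, Sum.elim_inr] at h1
  have h2 : 0 ≤ ∑ i, b * w2 i * ‖(T (g2 i)).1 (z₀ : ℂ) - F z₀‖ :=
    Finset.sum_nonneg fun i _ => mul_nonneg (mul_nonneg hb.le (hw2 i)) (norm_nonneg _)
  have h3 : a * ‖y1 z₀ - f z₀‖ ≤ a * ε / 2 := by
    have h4 : ‖y1 z₀ - f z₀‖ ≤ ∑ i, w1 i * ‖(T (g1 i)).1 (z₀ : ℂ) - F z₀‖ := by
      have e7 : y1 z₀ - f z₀ = ∑ i, (w1 i : ℂ) * ((T (g1 i)).1 (z₀ : ℂ) - F z₀) := by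
        simp_rw [mul_sub]
        rw [Finset.sum_sub_distrib, ← Finset.sum_mul, ← ofReal_sum, hw1s, ofReal_one, one_mul,
          ← hfF z₀, ← hy1e, ContinuousMap.coe_sum, Finset.sum_apply]
        congr 1
        refine Finset.sum_congr rfl fun i _ => ?_
        rw [← hT1 _ (hg1 i) z₀]
        simp
      rw [e7]
      refine (norm_sum_le _ _).trans (Finset.sum_le_sum fun i _ => ?_)
      rw [norm_mul, norm_real, Real.norm_eq_abs, abs_of_nonneg (hw1 i)]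
    have h5 : a * ∑ i, w1 i * ‖(T (g1 i)).1 (z₀ : ℂ) - F z₀‖ =
        ∑ i, a * w1 i * ‖(T (g1 i)).1 (z₀ : ℂ) - F z₀‖ := by
      rw [Finset.mul_sum]
      refine Finset.sum_congr rfl fun i _ => by ring
    have h6 := mul_le_mul_of_nonneg_left h4 ha.le
    linarith
  have h7 : ‖y1 z₀ - f z₀‖ ≤ ε / 2 := by
    have : a * ‖y1 z₀ - f z₀‖ ≤ a * (ε / 2) := by linarith
    exact le_of_mul_le_mul_left this ha
  have h8 := hc1 z₀ (le_max_right _ _)
  have h9 : δ' ≤ ε / 2 := min_le_right _ _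
  calc ‖x1 z₀ - f z₀‖ = ‖(y1 z₀ - f z₀) - (y1 z₀ - x1 z₀)‖ := by ring_nf
    _ ≤ ‖y1 z₀ - f z₀‖ + ‖y1 z₀ - x1 z₀‖ := norm_sub_le _ _
    _ ≤ ε := by linarith

end Pool.Agent.MP07129f
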